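import Pool.Agent.Helper76.Dim.Defs

set_option autoImplicit false

namespace Pool.Agent.Helper37Q

open Pool.Agent.Helper76.Dim

/-- The languages decided relative to the oracle `A` in time `2 ^ (c (n + 1) ^ K)`, for a constant
`c`: a deterministic oracle machine makes, on inputs of length `n`, at most `2 ^ (c (n + 1) ^ K)`
steps (so it may ask queries of exponential length); it accepts by entering state `4` and rejects by
entering state `5`. For `K = 1` this class is `E` relative to `A`. -/
def DE (K : ℕ) (A : Set (List Bool)) : Set (Set (List Bool)) :=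
  {L | ∃ (M : DTM) (c : ℕ), ∀ x, ∃ m ≤ 2 ^ (c * (x.length + 1) ^ K),
    (x ∈ L → ((M.step A)^[m] (Cfg.init M.k M.g M.n x)).state = 4) ∧
    (x ∉ L → ((M.step A)^[m] (Cfg.init M.k M.g M.n x)).state = 5)}

/-- The function `d` is computable relative to `A` in time `2 ^ (b (log n + 1) ^ c)`, for a constant
`b`: a deterministic oracle machine computes, for all `r` and `w`, in this time, for
`n = r + |w|`, (the code of) a rational number whose distance from `d w` is at most `2 ^ (-r)`.
For `c = 1` the time is polynomial, for general `c` it is quasipolynomial. -/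
def QComputable (c : ℕ) (A : Set (List Bool)) (d : List Bool → ℝ) : Prop :=
  ∃ (M : DTM) (b : ℕ) (f : ℕ → List Bool → ℚ),
    (∀ r w, |(f r w : ℝ) - d w| ≤ 2 ^ (-(r : ℝ))) ∧
      ∀ r w, M.Outputs A (inp r w) (2 ^ (b * (Nat.log 2 (r + w.length) + 1) ^ c))
        (ratCode (f r w))

end Pool.Agent.Helper37Q
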