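import Pool.Agent.Helper37Q.Hit

set_option autoImplicit false
set_option linter.unusedSectionVars false

/-!
# The hidden languages are random
-/

namespace Pool.Agent.Helper37Q

open Pool.Agent.Helper76.Dim
open Pool.Agent.Helper79K.DM (mach mach_surj tb apx Bit Agree eval_mono)

open MeasureTheory Filter

variable [Par]

/-! ### The inequality of Ville on the tree -/

theorem initSeg_congr {X Y : ℕ → Bool} {n : ℕ} (h : ∀ i < n, X i = Y i) :
    initSeg X n = initSeg Y n :=
  List.map_congr_left fun i hi => h i (List.mem_range.1 hi)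

theorem mu_initSeg (κ N : ℕ) (w : List Bool) :
    mu.real {ω | initSeg (XX κ ω) N = w} ≤ (1 / 2) ^ N := by
  have h1 := mu_cyl ((Finset.range N).image fun i => (κ, i, 0)) fun c => w.getD c.2.1 false
  rw [Finset.card_image_of_injective _ (fun a b h => by simpa using h), Finset.card_range] at h1
  rw [← h1]
  refine measureReal_mono fun ω hω => ?_
  have hω' : initSeg (XX κ ω) N = w := hω
  intro c hc
  simp only [Finset.mem_image, Finset.mem_range] at hc
  obtain ⟨i, hi, rfl⟩ := hc
  subst hω'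
  simp [initSeg, XX, List.getD, hi]

/-- the condition at the node `u` followed by `b` -/
def tok (g : List Bool → ℝ) (h : List Bool → Bool → ℝ) (u : List Bool) (b : Bool) : Prop :=
  h u false + h u true ≤ 2 * g u + (1 / 4) ^ u.length ∧ g (u ++ [b]) = h u b

/-- the event that the values get large, starting from node `u` -/
def Vt (κ : ℕ) (g : List Bool → ℝ) (h : List Bool → Bool → ℝ) (C : ℝ) (k : ℕ) (u : List Bool) :
    Set Om :=
  {ω | initSeg (XX κ ω) u.length = u ∧
    (∀ i, u.length ≤ i → i < u.length + k → tok g h (initSeg (XX κ ω) i) (XX κ ω i)) ∧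
    ∃ i, u.length ≤ i ∧ i ≤ u.length + k ∧ C ≤ g (initSeg (XX κ ω) i)}

theorem ville (κ : ℕ) {g : List Bool → ℝ} {h : List Bool → Bool → ℝ} (hg : ∀ u, 0 ≤ g u)
    (hh : ∀ u b, 0 ≤ h u b) {C : ℝ} (hC : 0 < C) (k : ℕ) (u : List Bool) :
    mu.real (Vt κ g h C k u) ≤ (1 / 2) ^ u.length * ((g u + 2 * (1 / 4) ^ u.length) / C) := by
  have large : ∀ k u, C ≤ g u →
      mu.real (Vt κ g h C k u) ≤ (1 / 2) ^ u.length * ((g u + 2 * (1 / 4) ^ u.length) / C) := by
    intro k u hu
    refine (measureReal_mono fun ω h => h.1).trans ((mu_initSeg κ u.length u).trans ?_)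
    refine le_mul_of_one_le_right (by positivity) ?_
    rw [le_div_iff₀ hC, one_mul]
    have : (0 : ℝ) ≤ 2 * (1 / 4) ^ u.length := by positivity
    linarith
  induction k generalizing u with
  | zero =>
    by_cases h1 : C ≤ g u
    · exact large 0 u h1
    · have h2 : Vt κ g h C 0 u = ∅ := by
        ext ω
        simp only [Vt, Set.mem_ofPred_eq, Set.mem_empty_iff_false, iff_false]
        rintro ⟨h3, _, i, h4, h5, h6⟩
        have h7 : i = u.length := by omega
        rw [h7, h3] at h6
        exact h1 h6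
      rw [h2, measureReal_empty]
      have := hg u
      positivity
  | succ k ih =>
    by_cases h1 : C ≤ g u
    · exact large _ u h1
    have hu := hg u
    by_cases h2 : h u false + h u true ≤ 2 * g u + (1 / 4) ^ u.length
    · have h3 : ∀ b, mu.real {ω | ω ∈ Vt κ g h C k (u ++ [b]) ∧ g (u ++ [b]) = h u b} ≤
          (1 / 2) ^ (u.length + 1) * ((h u b + 2 * (1 / 4) ^ (u.length + 1)) / C) := by
        intro b
        by_cases h4 : g (u ++ [b]) = h u b
        · refine (measureReal_mono fun ω h => h.1).trans ((ih (u ++ [b])).trans ?_)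
          rw [h4, List.length_append, List.length_singleton]
        · have h5 : {ω | ω ∈ Vt κ g h C k (u ++ [b]) ∧ g (u ++ [b]) = h u b} = ∅ := by
            ext ω
            simp only [Set.mem_ofPred_eq, Set.mem_empty_iff_false, iff_false]
            exact fun h => h4 h.2
          rw [h5, measureReal_empty]
          have := hh u b
          positivity
      have h4 : Vt κ g h C (k + 1) u ⊆
          {ω | ω ∈ Vt κ g h C k (u ++ [false]) ∧ g (u ++ [false]) = h u false} ∪
          {ω | ω ∈ Vt κ g h C k (u ++ [true]) ∧ g (u ++ [true]) = h u true} := by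
        rintro ω ⟨h5, h6, i, h7, h8, h9⟩
        have h10 := h6 u.length le_rfl (by omega)
        rw [h5] at h10
        have h11 : initSeg (XX κ ω) (u.length + 1) = u ++ [XX κ ω u.length] := by
          rw [initSeg_succ, h5]
        have h12 : u.length ≠ i := by
          rintro rfl
          rw [h5] at h9
          exact h1 h9
        have key : ∀ b, XX κ ω u.length = b →
            ω ∈ Vt κ g h C k (u ++ [b]) ∧ g (u ++ [b]) = h u b := by
          intro b hb
          rw [hb] at h11 h10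
          refine ⟨⟨?_, fun i' hi1 hi2 => h6 i' ?_ ?_, i, ?_, ?_, h9⟩, h10.2⟩
          · rw [List.length_append, List.length_singleton, h11]
          · simp only [List.length_append, List.length_singleton] at hi1; omega
          · simp only [List.length_append, List.length_singleton] at hi2; omega
          · simp only [List.length_append, List.length_singleton]; omega
          · simp only [List.length_append, List.length_singleton]; omega
        cases hb : XX κ ω u.length
        · exact Or.inl (key _ hb)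
        · exact Or.inr (key _ hb)
      refine (measureReal_mono h4).trans ((measureReal_union_le _ _).trans
        ((add_le_add (h3 false) (h3 true)).trans ?_))
      rw [← mul_add, ← add_div, pow_succ, mul_assoc]
      refine mul_le_mul_of_nonneg_left ?_ (by positivity)
      rw [← mul_div_assoc]
      refine div_le_div_of_nonneg_right ?_ hC.le
      have h5 : (0 : ℝ) < (1 / 4) ^ u.length := by positivity
      rw [pow_succ]
      linarith
    · have h3 : Vt κ g h C (k + 1) u = ∅ := by
        ext ω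
        simp only [Vt, Set.mem_ofPred_eq, Set.mem_empty_iff_false, iff_false]
        rintro ⟨h3, h4, _⟩
        have := (h4 u.length le_rfl (by omega)).1
        rw [h3] at this
        exact h2 this
      rw [h3, measureReal_empty]
      positivity

theorem ville' (κ : ℕ) {g : List Bool → ℝ} {h : List Bool → Bool → ℝ} (hg : ∀ u, 0 ≤ g u)
    (hh : ∀ u b, 0 ≤ h u b) {C : ℝ} (hC : 0 < C) {K : ℝ} (hK : 0 ≤ K) (n N : ℕ) :
    mu.real {ω | g (initSeg (XX κ ω) n) ≤ K ∧
      (∀ i, n ≤ i → i < N → tok g h (initSeg (XX κ ω) i) (XX κ ω i)) ∧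
      ∃ i, n ≤ i ∧ i ≤ N ∧ C ≤ g (initSeg (XX κ ω) i)} ≤ (K + 2) / C := by
  classical
  have h1 : {ω | g (initSeg (XX κ ω) n) ≤ K ∧
      (∀ i, n ≤ i → i < N → tok g h (initSeg (XX κ ω) i) (XX κ ω i)) ∧
      ∃ i, n ≤ i ∧ i ≤ N ∧ C ≤ g (initSeg (XX κ ω) i)} ⊆
      ⋃ f ∈ (Finset.univ : Finset (Fin n → Bool)),
        {ω | ω ∈ Vt κ g h C (N - n) (List.ofFn f) ∧ g (List.ofFn f) ≤ K} := by
    rintro ω ⟨h1, h2, i, h3, h4, h5⟩
    simp only [Set.mem_iUnion, Finset.mem_univ, exists_prop, true_and]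
    refine ⟨fun i => XX κ ω i, ?_⟩
    have h6 : List.ofFn (fun i : Fin n => XX κ ω i) = initSeg (XX κ ω) n := by
      refine List.ext_getElem (by simp) ?_
      intro i h1 h2
      simp [initSeg]
    rw [h6]
    refine ⟨⟨by rw [length_initSeg], fun i' hi1 hi2 => h2 i' ?_ ?_, i, ?_, ?_, h5⟩, h1⟩
    · rw [length_initSeg] at hi1; exact hi1
    · rw [length_initSeg] at hi2; omega
    · rw [length_initSeg]; exact h3
    · rw [length_initSeg]; omega
  refine (measureReal_mono h1 (measure_ne_top _ _)).trans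
    ((measureReal_biUnion_finset_le _ _).trans ?_)
  have h2 : ∀ f ∈ (Finset.univ : Finset (Fin n → Bool)),
      mu.real {ω | ω ∈ Vt κ g h C (N - n) (List.ofFn f) ∧ g (List.ofFn f) ≤ K} ≤
        (1 / 2) ^ n * ((K + 2) / C) := by
    intro f _
    by_cases h3 : g (List.ofFn f) ≤ K
    · refine (measureReal_mono fun ω h => h.1).trans ((ville κ hg hh hC _ _).trans ?_)
      rw [List.length_ofFn]
      have h4 : ((1 : ℝ) / 4) ^ n ≤ 1 := pow_le_one₀ (by norm_num) (by norm_num)
      gcongr
      linarith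
    · have h4 : {ω | ω ∈ Vt κ g h C (N - n) (List.ofFn f) ∧ g (List.ofFn f) ≤ K} = ∅ := by
        ext ω
        simp only [Set.mem_ofPred_eq, Set.mem_empty_iff_false, iff_false]
        exact fun h => h3 h.2
      rw [h4, measureReal_empty]
      positivity
  refine (Finset.sum_le_sum h2).trans (le_of_eq ?_)
  rw [Finset.sum_const, Finset.card_univ, nsmul_eq_mul]
  have h3 : (Fintype.card (Fin n → Bool) : ℝ) = 2 ^ n := by simp
  rw [h3, ← mul_assoc, ← mul_pow]
  norm_num

/-! ### The values of a machine -/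

/-- the value at node `u` relative to the oracle `A` -/
noncomputable def val (F : List Bool → QT ℝ) (A : Set (List Bool)) (u : List Bool) : ℝ :=
  ((F u).run (orA A) []).1

/-- the strings whose coins are known when one bets on the string number `n` in the hidden language
number `κ` -/
def Qs (κ n : ℕ) (k i : ℕ) : Prop := k ≠ κ ∨ i < n

open Classical in
/-- the sample point with hidden language number `κ` given by `u`, otherwise equal to `ω` -/
noncomputable def pt (κ : ℕ) (ω : Om) (u : List Bool) : Om :=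
  fun c => if c.1 = κ ∧ c.2.2 = 0 then u.getD c.2.1 false else ω c

/-- the condition at stage `n` -/
def cond (κ : ℕ) (F : List Bool → QT ℝ) (n : ℕ) (η : Om) : Prop :=
  val F (Id (Qs κ n) η) (initSeg (XX κ η) n ++ [false]) +
      val F (Id (Qs κ n) η) (initSeg (XX κ η) n ++ [true]) ≤
      2 * val F (Id (Qs κ n) η) (initSeg (XX κ η) n) + (1 / 4) ^ n ∧
    val F (Id (Qs κ (n + 1)) η) (initSeg (XX κ η) (n + 1)) =
      val F (Id (Qs κ n) η) (initSeg (XX κ η) (n + 1))

/-- the event that the values get large between `n` and `N` -/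
def VE (κ : ℕ) (F : List Bool → QT ℝ) (C K : ℝ) (n N : ℕ) : Set Om :=
  {η | val F (Id (Qs κ n) η) (initSeg (XX κ η) n) ≤ K ∧
    (∀ i, n ≤ i → i < N → cond κ F i η) ∧
    ∃ i, n ≤ i ∧ i ≤ N ∧ C ≤ val F (Id (Qs κ i) η) (initSeg (XX κ η) i)}

/-- the properties of the decision trees which are used -/
structure Tame (F : List Bool → QT ℝ) (l : ℕ → ℕ) : Prop where
  nonneg : ∀ v ans h, 0 ≤ ((F v).run ans h).1
  mono : Monotone l
  qlen : ∀ n v, v.length ≤ n + 1 → Qlen (F v) (l n)
  bdd : ∀ n v, v.length ≤ n + 1 → (F v).Bdd (l n)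

variable {κ : ℕ} {F : List Bool → QT ℝ} {l : ℕ → ℕ}

theorem Tame.val_ag (hF : Tame F l) {n : ℕ} {Q : ℕ → ℕ → Prop} (hacc : Acc (l n) Q) {ω ω' : Om}
    (h : Ag Q ω ω') {v : List Bool} (hv : v.length ≤ n + 1) :
    val F (Id Q ω) v = val F (Id Q ω') v := by
  rw [val, val, run_ag (fun z hz => Id_ag hacc h hz) _ (hF.qlen n v hv)]

theorem Tame.val_dep (hF : Tame F l) {n k : ℕ} (hk : l n + 1 ≤ k) {ω ω' : Om}
    (h : ∀ c ∈ CC k, ω c = ω' c) {v : List Bool} (hv : v.length ≤ n + 1) (Q : ℕ → ℕ → Prop) :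
    val F (Id Q ω) v = val F (Id Q ω') v := by
  have h2 : Agree k (Or ω) (Or ω') := Or_dep k h
  have h3 : Agree k (Id Q ω) (Id Q ω') := Id_agree h2
  rw [val, val, run_ag (fun z hz => h3 z (by omega)) _ (hF.qlen n v hv)]

theorem XX_dep {n k : ℕ} (hκ : κ < k) (hk : n ≤ k) {ω ω' : Om} (h : ∀ c ∈ CC k, ω c = ω' c) :
    initSeg (XX κ ω) n = initSeg (XX κ ω') n := by
  refine initSeg_congr fun i hi => h (κ, i, 0) ?_
  simp only [CC, Finset.mem_product, Finset.mem_range]
  have : k < 2 ^ k := Nat.lt_two_pow_self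
  exact ⟨hκ, by omega, by positivity⟩

theorem Tame.measurable_VE (hF : Tame F l) (κ : ℕ) (C K : ℝ) (n N : ℕ) (hnN : n ≤ N) :
    MeasurableSet (VE κ F C K n N) := by
  refine Dep.measurable (C := CC (max (l N + 1) (max (N + 1) (κ + 1)))) fun ω ω' h => ?_
  set k := max (l N + 1) (max (N + 1) (κ + 1)) with hk
  have hX : ∀ i, i ≤ N + 1 → initSeg (XX κ ω) i = initSeg (XX κ ω') i := fun i hi =>
    XX_dep (by omega) (by omega) h
  have hv : ∀ i Q (v : List Bool), i ≤ N → v.length ≤ i + 1 →
      val F (Id Q ω) v = val F (Id Q ω') v := by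
    intro i Q v hi hv
    refine hF.val_dep (n := i) ?_ h hv Q
    have := hF.mono hi
    omega
  have hc : ∀ i, i < N → (cond κ F i ω ↔ cond κ F i ω') := by
    intro i hi
    rw [cond, cond, hX i (by omega), hX (i + 1) (by omega), hv i _ _ hi.le (by simp),
      hv i _ _ hi.le (by simp), hv i _ _ hi.le (by simp), hv i (Qs κ (i + 1)) _ hi.le (by simp),
      hv i (Qs κ i) _ hi.le (by simp)]
  simp only [VE, Set.mem_ofPred_eq]
  rw [hX n (by omega), hv n _ _ hnN (by simp)]
  refine and_congr_right fun _ => and_congr ?_ ?_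
  · exact forall_congr' fun i => forall₂_congr fun _ hi => hc i hi
  · refine exists_congr fun i => and_congr_right fun _ => and_congr_right fun hi => ?_
    rw [hX i (by omega), hv i _ _ hi (by simp)]

/-- The values get large with small probability. -/
theorem Tame.mu_VE (hF : Tame F l) {C K : ℝ} (hC : 0 < C) (hK : 0 ≤ K) {n N : ℕ} (hnN : n ≤ N)
    (hacc : ∀ i, n ≤ i → Acc (l i) (Qs κ i)) :
    mu.real (VE κ F C K n N) ≤ (K + 2) / C := by
  refine mu_le_of_mixP (fun c => ¬ (c.1 = κ ∧ c.2.2 = 0)) (hF.measurable_VE κ C K n N hnN)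
    (by positivity) fun ω => ?_
  set g : List Bool → ℝ := fun u => val F (Id (Qs κ u.length) (pt κ ω u)) u with hg
  set h : List Bool → Bool → ℝ := fun u b => val F (Id (Qs κ u.length) (pt κ ω u)) (u ++ [b])
    with hh
  refine le_trans (measureReal_mono ?_ (measure_ne_top _ _))
    (ville' κ (g := g) (h := h) (fun u => hF.nonneg _ _ _) (fun u b => hF.nonneg _ _ _) hC hK n N)
  intro ω' hω'
  set η := mixP (fun c => ¬ (c.1 = κ ∧ c.2.2 = 0)) ω ω' with hη
  have hX : XX κ η = XX κ ω' := by
    funext i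
    show mixP (fun c => ¬ (c.1 = κ ∧ c.2.2 = 0)) ω ω' (κ, i, 0) = ω' (κ, i, 0)
    exact mixP_neg (by simp)
  have hag : ∀ i, Ag (Qs κ i) η (pt κ ω (initSeg (XX κ η) i)) := by
    rintro i ⟨k, m, b⟩ hc
    by_cases h0 : k = κ ∧ b = 0
    · obtain ⟨rfl, rfl⟩ := h0
      have hm : m < i := by
        rcases hc with hc | hc
        · exact absurd rfl hc
        · exact hc
      have h1 : pt k ω (initSeg (XX k η) i) (k, m, 0) = η (k, m, 0) := by
        simp only [pt, and_self, if_true]
        simp [initSeg, XX, hm]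
      rw [h1]
    · have h1 : pt κ ω (initSeg (XX κ η) i) (k, m, b) = ω (k, m, b) := if_neg h0
      rw [h1]
      exact mixP_pos h0
  have hgv : ∀ i, n ≤ i → g (initSeg (XX κ η) i) = val F (Id (Qs κ i) η) (initSeg (XX κ η) i) := by
    intro i hi
    rw [hg]
    simp only [length_initSeg]
    exact (hF.val_ag (hacc i hi) (hag i) (by simp)).symm
  have hhv : ∀ i, n ≤ i → ∀ b, h (initSeg (XX κ η) i) b =
      val F (Id (Qs κ i) η) (initSeg (XX κ η) i ++ [b]) := by
    intro i hi b
    rw [hh]
    simp only [length_initSeg]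
    exact (hF.val_ag (hacc i hi) (hag i) (by simp)).symm
  obtain ⟨h1, h2, i, h3, h4, h5⟩ := (hω' : η ∈ VE κ F C K n N)
  rw [Set.mem_ofPred_eq, ← hX]
  refine ⟨?_, fun i hi hi' => ?_, i, h3, h4, ?_⟩
  · rw [hgv n le_rfl]
    exact h1
  · obtain ⟨h6, h7⟩ := h2 i hi hi'
    refine ⟨?_, ?_⟩
    · rw [hgv i hi, hhv i hi, hhv i hi, length_initSeg]
      exact h6
    · rw [hhv i hi, ← initSeg_succ, hgv (i + 1) (by omega)]
      exact h7
  · rw [hgv i h3]
    exact h5

/-- The values are unbounded with probability zero. -/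
theorem Tame.null_large (hF : Tame F l) {n : ℕ} (hacc : ∀ i, n ≤ i → Acc (l i) (Qs κ i))
    (K : ℕ) :
    mu {ω | val F (Id (Qs κ n) ω) (initSeg (XX κ ω) n) ≤ K ∧ (∀ i, n ≤ i → cond κ F i ω) ∧
      ∀ C : ℕ, ∃ i, n ≤ i ∧ (C : ℝ) ≤ val F (Id (Qs κ i) ω) (initSeg (XX κ ω) i)} = 0 := by
  set S := {ω | val F (Id (Qs κ n) ω) (initSeg (XX κ ω) n) ≤ K ∧
      (∀ i, n ≤ i → cond κ F i ω) ∧
      ∀ C : ℕ, ∃ i, n ≤ i ∧ (C : ℝ) ≤ val F (Id (Qs κ i) ω) (initSeg (XX κ ω) i)} with hS
  have h1 : ∀ C : ℕ, 1 ≤ C → mu.real S ≤ (K + 2) / C := by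
    intro C hC
    have hC' : (0 : ℝ) < C := by exact_mod_cast hC
    let W : ℕ → Set Om := fun N => {ω | val F (Id (Qs κ n) ω) (initSeg (XX κ ω) n) ≤ K ∧
      (∀ i, n ≤ i → cond κ F i ω) ∧
      ∃ i, n ≤ i ∧ i ≤ N ∧ (C : ℝ) ≤ val F (Id (Qs κ i) ω) (initSeg (XX κ ω) i)}
    have hW : Monotone W := by
      rintro N N' hN ω ⟨h1, h2, i, h3, h4, h5⟩
      exact ⟨h1, h2, i, h3, h4.trans hN, h5⟩
    have h2 : S ⊆ ⋃ N, W N := by
      rintro ω ⟨h1, h2, h3⟩
      obtain ⟨i, h4, h5⟩ := h3 C
      exact Set.mem_iUnion.2 ⟨i, h1, h2, i, h4, le_rfl, h5⟩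
    have h3 : ∀ N, mu (W N) ≤ ENNReal.ofReal ((K + 2) / C) := by
      intro N
      rcases le_or_gt n N with hN | hN
      · have h4 : W N ⊆ VE κ F C K n N := by
          rintro ω ⟨h1, h2, h3⟩
          exact ⟨h1, fun i hi _ => h2 i hi, h3⟩
        refine (measure_mono h4).trans ?_
        rw [← ofReal_measureReal (measure_ne_top _ _)]
        exact ENNReal.ofReal_le_ofReal (hF.mu_VE hC' (Nat.cast_nonneg K) hN hacc)
      · have h4 : W N = ∅ := by
          ext ω
          simp only [W, Set.mem_ofPred_eq, Set.mem_empty_iff_false, iff_false]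
          rintro ⟨_, _, i, h5, h6, _⟩
          omega
        rw [h4, measure_empty]
        exact zero_le
    have h4 : mu S ≤ ENNReal.ofReal ((K + 2) / C) := by
      refine (measure_mono h2).trans ?_
      rw [hW.measure_iUnion]
      exact iSup_le h3
    exact ENNReal.toReal_le_of_le_ofReal (by positivity) h4
  have h2 : mu.real S = 0 := by
    by_contra hne
    have h3 : 0 < mu.real S := lt_of_le_of_ne measureReal_nonneg (Ne.symm hne)
    obtain ⟨C, hC⟩ := exists_nat_gt ((K + 2) / mu.real S)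
    have h4 : (0 : ℝ) < C := lt_of_le_of_lt (by positivity) hC
    have h5 := h1 C (by exact_mod_cast h4)
    rw [le_div_iff₀ h4] at h5
    rw [div_lt_iff₀ h3] at hC
    linarith
  exact (measureReal_eq_zero_iff (measure_ne_top _ _)).1 h2

end Pool.Agent.Helper37Q
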