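import Pool.Agent.Helper37Q.Low
import Pool.Agent.Helper37Q.Defs

set_option autoImplicit false
set_option linter.unusedSectionVars false

/-!
# The hidden languages are random: the null sets
-/

namespace Pool.Agent.Helper37Q

open Pool.Agent.Helper76.Dim
open Pool.Agent.Helper79K.DM (mach mach_surj tb apx Bit Agree dec dec_ratCode dec_nonneg
  eval_mono poly_two_pow poly_le half_pow)

open MeasureTheory Filter

variable [Par]

/-! ### Eventual inequalities -/

theorem le_log {b n : ℕ} (h : 2 ^ b ≤ n) : b ≤ Nat.log 2 n :=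
  (Nat.le_log_iff_pow_le (by norm_num) (by
    have : 1 ≤ 2 ^ b := Nat.one_le_two_pow
    omega)).2 h

theorem le_length_of_idx {b m : ℕ} (h : 2 ^ b ≤ m + 1) (x : List Bool) (hx : m ≤ idx x) :
    b ≤ x.length := by
  have h1 := idx_lt x
  have h2 : 2 ^ b < 2 ^ (x.length + 1) := by omega
  have h3 := (Nat.pow_lt_pow_iff_right (by norm_num : 1 < 2)).1 h2
  omega

/-- the time bound -/
def TQ (c b m : ℕ) : ℕ := 2 ^ (b * (Nat.log 2 m + 1) ^ c)

theorem TQ_mono (c b : ℕ) {m m' : ℕ} (h : m ≤ m') : TQ c b m ≤ TQ c b m' :=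
  Nat.pow_le_pow_right (by norm_num) (Nat.mul_le_mul_left _
    (Nat.pow_le_pow_left (Nat.succ_le_succ (Nat.log_mono_right h)) c))

/-- the number of the hidden language which is random for time bounds with parameter `c` -/
def kap (c : ℕ) : ℕ := (c + 1) * (Par.K + 2)

theorem log_bound {n : ℕ} (hn : 5 ≤ n) : Nat.log 2 (3 * n + 5) + 1 ≤ Nat.log 2 n + 3 := by
  have h1 : n < 2 ^ (Nat.log 2 n + 1) := Nat.lt_pow_succ_log_self (by norm_num) n
  have h2 : 2 ^ (Nat.log 2 n + 3) = 4 * 2 ^ (Nat.log 2 n + 1) := by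
    rw [pow_add, pow_add]
    ring
  exact Nat.log_lt_of_lt_pow (by omega) (by omega)

theorem poly_log {b c s : ℕ} (h1 : 3 ≤ s) (h2 : b * 2 ^ c ≤ s) : b * (s + 3) ^ c ≤ s ^ (c + 1) := by
  calc b * (s + 3) ^ c ≤ b * (2 * s) ^ c :=
        Nat.mul_le_mul_left _ (Nat.pow_le_pow_left (by omega) c)
    _ = (b * 2 ^ c) * s ^ c := by rw [mul_pow]; ring
    _ ≤ s * s ^ c := Nat.mul_le_mul_right _ h2
    _ = s ^ (c + 1) := by ring

/-- the bound for the exponent in the running time -/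
theorem exp_bound {c b n : ℕ} (hn : 5 ≤ n) (h1 : 3 ≤ Nat.log 2 n) (h2 : b * 2 ^ c ≤ Nat.log 2 n) :
    b * (Nat.log 2 (3 * n + 5) + 1) ^ c ≤ Nat.log 2 n ^ (c + 1) :=
  (Nat.mul_le_mul_left _ (Nat.pow_le_pow_left (log_bound hn) c)).trans (poly_log h1 h2)

/-- the numbers which are large enough -/
def Lg (c b n : ℕ) : Prop := 5 ≤ n ∧ 4 ≤ Nat.log 2 n ∧ b * 2 ^ c ≤ Nat.log 2 n

theorem Lg.of_le {c b n : ℕ} (h : 2 ^ (b * 2 ^ c + 4) ≤ n) : Lg c b n := by
  have h1 := le_log h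
  have h2 : b * 2 ^ c + 4 < 2 ^ (b * 2 ^ c + 4) := Nat.lt_two_pow_self
  exact ⟨by omega, by omega, by omega⟩

theorem acc_of_Lg {c b n : ℕ} (h : Lg c b n) : Acc (TQ c b (3 * n + 5)) (Qs (kap c) n) := by
  obtain ⟨h0, h1, h2⟩ := h
  intro j hj k i hR
  rw [Qs]
  by_cases hk : k = kap c
  · right
    have h3 : ar j ≤ Nat.log 2 n ^ (c + 1) :=
      ((Nat.pow_le_pow_iff_right (by norm_num)).1 hj).trans (exp_bound h0 (by omega) h2)
    rw [Rv, hk, kap] at hR
    have h4 : (str i).length ^ ((c + 1) * (Par.K + 2)) <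
        Nat.log 2 n ^ ((c + 1) * (Par.K + 2)) := by
      refine lt_of_lt_of_le hR ?_
      rw [pow_mul]
      exact Nat.pow_le_pow_left h3 _
    have h5 : (str i).length < Nat.log 2 n := lt_of_pow_lt_pow_left₀ _ (Nat.zero_le _) h4
    have h6 := (length_str_le i).2
    have h7 : 2 ^ ((str i).length + 1) ≤ 2 ^ Nat.log 2 n := Nat.pow_le_pow_right (by norm_num) h5
    have h8 : 2 ^ Nat.log 2 n ≤ n := Nat.pow_log_le_self 2 (by omega)
    omega
  · exact Or.inl hk

variable {F : List Bool → QT ℝ}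

/-- Witnesses are found only finitely often. -/
theorem Tame.null_hit {c b : ℕ} (hF : Tame F fun n => TQ c b (3 * n + 5)) {s : List Bool}
    (hs : s.length ≤ 1) :
    mu {ω | ∃ᶠ n in atTop, ω ∈ {ω | ¬ Ok (Qs (kap c) n) (F (initSeg (XX (kap c) ω) n ++ s)) ω}}
      = 0 := by
  have hsum : Summable fun n : ℕ => 1 / ((n : ℝ) + 1) ^ 2 := by
    have h1 : Summable fun n : ℕ => 1 / ((n : ℝ)) ^ 2 :=
      Real.summable_one_div_nat_pow.2 (by norm_num)
    have h2 := (summable_nat_add_iff 1).2 h1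
    refine h2.congr fun n => ?_
    push_cast
    rfl
  refine borel hsum ?_
  refine eventually_atTop.2 ⟨2 ^ (b * 2 ^ c + 4), fun n hn => ?_⟩
  have hL := Lg.of_le hn
  obtain ⟨h0, h1, h2⟩ := hL
  set t := Nat.log 2 n with ht
  have h3 : 2 ^ t ≤ n := Nat.pow_log_le_self 2 (by omega)
  have h4 : n < 2 ^ (t + 1) := Nat.lt_pow_succ_log_self (by norm_num) n
  have h5 : b * (Nat.log 2 (3 * n + 5) + 1) ^ c ≤ t ^ (c + 1) := exp_bound h0 (by omega) h2
  have hlen : ∀ ω : Om, (initSeg (XX (kap c) ω) n ++ s).length ≤ n + 1 := fun ω => by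
    rw [List.length_append, length_initSeg]
    omega
  have h6 := mu_ok (Q := Qs (kap c) n) (l := TQ c b (3 * n + 5)) (k := max n (kap c + 1))
    (b := t ^ kap c) (T := TQ c b (3 * n + 5))
    (τ := fun ω => F (initSeg (XX (kap c) ω) n ++ s))
    (fun ω ω' h => by rw [XX_dep (by omega) (le_max_left _ _) h])
    (fun ω => hF.qlen n _ (hlen ω)) (fun ω => hF.bdd n _ (hlen ω))
    (fun ω ω' => by
      have : initSeg (XX (kap c) (mix (Qs (kap c) n) ω ω')) n = initSeg (XX (kap c) ω) n :=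
        initSeg_congr fun i hi => mix_pos (c := (kap c, i, 0)) (Or.inr hi)
      simp only [this]) (acc_of_Lg ⟨h0, h1, h2⟩)
    (fun k x hx => by
      rw [Qs, not_or, not_not] at hx
      rw [hx.1]
      exact Nat.pow_le_pow_left (le_length_of_idx (m := n) (by omega) x (by omega)) _)
  refine h6.trans ?_
  rw [le_div_iff₀ (by positivity)]
  have h7 : ((TQ c b (3 * n + 5) : ℕ) : ℝ) ≤ 2 ^ (t ^ (c + 1)) := by
    rw [TQ]
    push_cast
    exact pow_le_pow_right₀ (by norm_num) h5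
  have h8 : (n : ℝ) + 1 ≤ 2 ^ (t + 1) := by exact_mod_cast h4
  have h9 : (2 : ℝ) ^ (t ^ (c + 1)) * (2 ^ (t + 1)) ^ 2 ≤ 2 ^ (t ^ kap c) := by
    rw [← pow_mul, ← pow_add]
    refine pow_le_pow_right₀ (by norm_num) ?_
    have e0 : (c + 1) + (c + 1) ≤ kap c := by
      rw [kap]
      nlinarith [Nat.zero_le ((c + 1) * Par.K)]
    have e1 : t ^ (c + 1) * t ^ (c + 1) ≤ t ^ kap c := by
      rw [← pow_add]
      exact Nat.pow_le_pow_right (by omega) e0
    have e2 : t ≤ t ^ (c + 1) := Nat.le_self_pow (by omega) t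
    nlinarith
  have h10 : ((1 : ℝ) / 2) ^ (t ^ kap c) * 2 ^ (t ^ kap c) = 1 := by
    rw [← mul_pow]
    norm_num
  calc ((TQ c b (3 * n + 5) : ℕ) : ℝ) * (1 / 2) ^ (t ^ kap c) * ((n : ℝ) + 1) ^ 2 ≤
      2 ^ (t ^ (c + 1)) * (1 / 2) ^ (t ^ kap c) * (2 ^ (t + 1)) ^ 2 := by gcongr
    _ = (1 / 2) ^ (t ^ kap c) * (2 ^ (t ^ (c + 1)) * (2 ^ (t + 1)) ^ 2) := by ring
    _ ≤ (1 / 2) ^ (t ^ kap c) * 2 ^ (t ^ kap c) := by gcongr
    _ = 1 := h10

/-- the decision trees of a machine which approximates a gale -/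
noncomputable def FQ (M : DTM) (c b : ℕ) (u : List Bool) : QT ℝ :=
  (M.qt (TQ c b (3 * u.length + 2)) (Cfg.init M.k M.g M.n (inp (2 * u.length + 2) u))).map dec

theorem tame_FQ (M : DTM) (c b : ℕ) : Tame (FQ M c b) fun n => TQ c b (3 * n + 5) := by
  refine ⟨fun v ans h => ?_, fun a b h => TQ_mono _ _ (by omega), fun n v hv => ?_,
    fun n v hv => ?_⟩
  · rw [FQ, QT.run_map]
    exact dec_nonneg _
  · exact ((qt_init_qlen M _ _).mono (TQ_mono _ _ (by omega))).map _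
  · exact QT.Bdd.map ((M.qt_bdd _ _).mono (TQ_mono _ _ (by omega))) _

/-- The oracles for which a machine computes a martingale which succeeds on the hidden language
form a null set. -/
theorem null_succ (M : DTM) (c b : ℕ) :
    mu {ω | ∃ (d : List Bool → ℝ) (f : ℕ → List Bool → ℚ), IsGale 1 d ∧
      (∀ r w, |(f r w : ℝ) - d w| ≤ 2 ^ (-(r : ℝ))) ∧
      (∀ r w, M.Outputs (Or ω) (inp r w) (TQ c b (r + w.length)) (ratCode (f r w))) ∧
      Succeeds d (XX (kap c) ω)} = 0 := by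
  set κ := kap c with hκ
  set F := FQ M c b with hFdef
  have hF : Tame F fun n => TQ c b (3 * n + 5) := tame_FQ M c b
  obtain ⟨n1, hn1⟩ : ∃ n1, ∀ i, n1 ≤ i → Acc (TQ c b (3 * i + 5)) (Qs κ i) :=
    ⟨2 ^ (b * 2 ^ c + 4), fun i hi => acc_of_Lg (Lg.of_le hi)⟩
  have hnull : mu (({ω | ∃ᶠ n in atTop, ω ∈ {ω | ¬ Ok (Qs κ n) (F (initSeg (XX κ ω) n ++ [])) ω}} ∪
      ({ω | ∃ᶠ n in atTop, ω ∈ {ω | ¬ Ok (Qs κ n) (F (initSeg (XX κ ω) n ++ [false])) ω}} ∪
      {ω | ∃ᶠ n in atTop, ω ∈ {ω | ¬ Ok (Qs κ n) (F (initSeg (XX κ ω) n ++ [true])) ω}})) ∪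
      ⋃ k : ℕ × ℕ, {ω | val F (Id (Qs κ (n1 + k.1)) ω) (initSeg (XX κ ω) (n1 + k.1)) ≤ k.2 ∧
        (∀ i, n1 + k.1 ≤ i → cond κ F i ω) ∧
        ∀ C : ℕ, ∃ i, n1 + k.1 ≤ i ∧
          (C : ℝ) ≤ val F (Id (Qs κ i) ω) (initSeg (XX κ ω) i)}) = 0 := by
    rw [measure_union_null_iff, measure_union_null_iff, measure_union_null_iff,
      measure_iUnion_null_iff]
    refine ⟨⟨hF.null_hit (by simp), hF.null_hit (by simp), hF.null_hit (by simp)⟩, fun k => ?_⟩
    exact hF.null_large (fun i hi => hn1 i (by omega)) k.2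
  refine measure_mono_null ?_ hnull
  rintro ω ⟨d, f, hd, h1, h2, hX⟩
  by_contra hc
  simp only [Set.mem_union, not_or] at hc
  obtain ⟨⟨c1, c2, c3⟩, c4⟩ := hc
  simp only [Set.mem_ofPred_eq, not_frequently, not_not] at c1 c2 c3
  obtain ⟨n0, hn0⟩ := eventually_atTop.1 (c1.and (c2.and c3))
  set g : List Bool → ℝ := fun w => max (f (2 * w.length + 2) w : ℝ) 0 with hg
  have hrun : ∀ w, val F (Or ω) w = g w := by
    intro w
    rw [val, hFdef, FQ, QT.run_map]
    have h3 := h2 (2 * w.length + 2) w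
    have e : 2 * w.length + 2 + w.length = 3 * w.length + 2 := by ring
    rw [e] at h3
    have h4 := M.qt_of_outputs h3 []
    show dec _ = _
    rw [h4, dec_ratCode]
  have happ : ∀ w, |g w - d w| ≤ (1 / 4) ^ w.length / 4 := by
    intro w
    have h3 := h1 (2 * w.length + 2) w
    have h4 : (2 : ℝ) ^ (-((2 * w.length + 2 : ℕ) : ℝ)) = (1 / 4) ^ w.length / 4 := by
      rw [← half_pow, pow_add, pow_mul]
      norm_num
      ring
    rw [h4] at h3
    have h5 := hd.1 w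
    have h6 : d w = max (d w) 0 := (max_eq_left h5).symm
    refine le_trans ?_ h3
    rw [hg]
    conv_lhs => rw [h6]
    exact abs_max_sub_max_le_abs _ _ _
  have hval : ∀ n, n0 ≤ n →
      val F (Id (Qs κ n) ω) (initSeg (XX κ ω) n) = g (initSeg (XX κ ω) n) := by
    intro n hn
    have h3 := (hn0 n hn).1.run
    rw [List.append_nil] at h3
    rw [← hrun, val, val, h3]
  have hval' : ∀ n, n0 ≤ n → ∀ b, val F (Id (Qs κ n) ω) (initSeg (XX κ ω) n ++ [b]) =
      g (initSeg (XX κ ω) n ++ [b]) := by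
    intro n hn b
    cases b
    · rw [← hrun, val, val, (hn0 n hn).2.1.run]
    · rw [← hrun, val, val, (hn0 n hn).2.2.run]
  have hcond : ∀ i, n0 ≤ i → cond κ F i ω := by
    intro i hi
    refine ⟨?_, ?_⟩
    · rw [hval i hi, hval' i hi, hval' i hi]
      set u := initSeg (XX κ ω) i with hu
      have a1 := abs_le.1 (happ (u ++ [false]))
      have a2 := abs_le.1 (happ (u ++ [true]))
      have a3 := abs_le.1 (happ u)
      simp only [List.length_append, List.length_singleton, pow_succ] at a1 a2 a3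
      have hul : u.length = i := length_initSeg _ _
      rw [hul] at a1 a2 a3
      have h3 : d (u ++ [false]) + d (u ++ [true]) = 2 * d u := by
        have h4 := hd.2 u
        rw [Real.rpow_neg (by norm_num), Real.rpow_one] at h4
        linarith
      have h7 : (0 : ℝ) < (1 / 4) ^ i := by positivity
      linarith [a1.1, a1.2, a2.1, a2.2, a3.1, a3.2]
    · rw [hval (i + 1) (by omega), initSeg_succ, hval' i hi]
  obtain ⟨K, hK⟩ := exists_nat_ge (g (initSeg (XX κ ω) (n1 + n0)))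
  refine c4 (Set.mem_iUnion.2 ⟨(n0, K), ?_, fun i hi => hcond i (by
    have : n1 + n0 ≤ i := hi
    omega), fun C => ?_⟩)
  · rw [hval _ (by show n0 ≤ n1 + n0; omega)]
    exact hK
  · obtain ⟨m, hm1, hm2⟩ := hX (C + 1) (n1 + n0)
    refine ⟨m, hm1, ?_⟩
    rw [hval m (by omega)]
    have a1 := abs_le.1 (happ (initSeg (XX κ ω) m))
    have h7 : (1 / 4 : ℝ) ^ (initSeg (XX κ ω) m).length ≤ 1 := pow_le_one₀ (by norm_num) (by norm_num)
    linarith [a1.1]

end Pool.Agent.Helper37Q
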