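import Pool.Agent.Helper79K.DM.RM

set_option autoImplicit false

/-!
# The machine which reads a table, for queries with a prefix

This is the machine `MG` of `Pool.Agent.Helper79K.DM.GaleM`, which first writes the word `P` on the
query tape.
-/

namespace Pool.Agent.Helper37Q

open Pool.Agent.Helper76.Dim

theorem val0 (n : ℕ) : (0 : St n).val = 0 := rfl

theorem val1 (n : ℕ) : (1 : St n).val = 1 := by
  show 1 % (n + 6) = 1
  exact Nat.mod_eq_of_lt (by omega)

theorem val2 (n : ℕ) : (2 : St n).val = 2 := by
  show 2 % (n + 6) = 2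
  exact Nat.mod_eq_of_lt (by omega)

theorem val3 (n : ℕ) : (3 : St n).val = 3 := by
  show 3 % (n + 6) = 3
  exact Nat.mod_eq_of_lt (by omega)

theorem val4 (n : ℕ) : (4 : St n).val = 4 := by
  show 4 % (n + 6) = 4
  exact Nat.mod_eq_of_lt (by omega)

theorem val5 (n : ℕ) : (5 : St n).val = 5 := by
  show 5 % (n + 6) = 5
  exact Nat.mod_eq_of_lt (by omega)

theorem ne_num {n : ℕ} {a b : St n} {i j : ℕ} (ha : a.val = i) (hb : b.val = j) (h : i ≠ j) :
    a ≠ b := fun e => h (by rw [← ha, ← hb, e])

namespace DG

open Pool.Agent.Helper79K.DM (Bit bt act3 cf cf_state cf_tape1 cf_tape2 cf_read0 cf_read1 cf_read2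
  init_eq act_00 act_10 act_01 update_self ask_yes ask_no stp encT_append bit_odd bit_even
  update_mark update_unmark mark_read)

variable (P : List Bool)

/-- the state number `i` -/
def st (i : ℕ) (h : i < P.length + 10) : St (P.length + 4) := ⟨i, h⟩

/-- copying -/
def g6 (s : Fin 3 → Sym 0) : Action 0 0 (P.length + 4) :=
  match s 0 with
  | some (Sum.inl b) => act3 (st P 7 (by omega)) (s 0) (bt b) (s 2) .stay .right .stay
  | _ => act3 (st P 8 (by omega)) (s 0) (s 1) (s 2) .stay .stay .stay

/-- after the answer `b` -/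
def g23 (b : Bool) (s : Fin 3 → Sym 0) : Action 0 0 (P.length + 4) :=
  match s 0 with
  | some _ => act3 (st P 8 (by omega)) none (s 1) (bt b) .stay .stay .right
  | none => if b then act3 (st P 8 (by omega)) (bt true) (s 1) (s 2) .stay .stay .stay
      else act3 4 (s 0) (s 1) (s 2) .stay .stay .stay

/-- the transition function -/
def dG (q : St (P.length + 4)) (s : Fin 3 → Sym 0) : Action 0 0 (P.length + 4) :=
  if q.val = 0 then act3 (st P 9 (by omega)) (s 0) (s 1) (s 2) .stay .stay .stay
  else if q.val = 2 then g23 P true s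
  else if q.val = 3 then g23 P false s
  else if q.val = 6 then g6 P s
  else if q.val = 7 then act3 (st P 6 (by omega)) (s 0) (bt false) (s 2) .right .right .stay
  else if q.val = 8 then act3 1 (s 0) (bt true) (s 2) .stay .right .stay
  else if h : q.val - 9 < P.length then
    act3 (st P (q.val + 1) (by omega)) (s 0) (bt P[q.val - 9]) (s 2) .stay .right .stay
  else act3 (st P 6 (by omega)) (s 0) (bt false) (s 2) .stay .right .stay

/-- The machine which writes `P`, copies the input to the query tape and then asks for the bits of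
the output one after another. -/
def MP : DTM := ⟨0, 0, P.length + 4, dG P⟩

theorem MP_step (A : Set (List Bool)) : (MP P).step A = stp (dG P) A := rfl

theorem dG0 (s : Fin 3 → Sym 0) :
    dG P 0 s = act3 (st P 9 (by omega)) (s 0) (s 1) (s 2) .stay .stay .stay := if_pos (val0 _)

theorem dG2 (s : Fin 3 → Sym 0) : dG P 2 s = g23 P true s := by
  rw [dG, if_neg (by rw [val2]; norm_num), if_pos (val2 _)]

theorem dG3 (s : Fin 3 → Sym 0) : dG P 3 s = g23 P false s := by
  rw [dG, if_neg (by rw [val3]; norm_num), if_neg (by rw [val3]; norm_num), if_pos (val3 _)]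

theorem dG6 (s : Fin 3 → Sym 0) : dG P (st P 6 (by omega)) s = g6 P s := rfl

theorem dG7 (s : Fin 3 → Sym 0) : dG P (st P 7 (by omega)) s =
    act3 (st P 6 (by omega)) (s 0) (bt false) (s 2) .right .right .stay := rfl

theorem dG8 (s : Fin 3 → Sym 0) : dG P (st P 8 (by omega)) s =
    act3 1 (s 0) (bt true) (s 2) .stay .right .stay := rfl

theorem dGp {i : ℕ} (hi : i < P.length) (s : Fin 3 → Sym 0) :
    dG P (st P (9 + i) (by omega)) s =
      act3 (st P (9 + (i + 1)) (by omega)) (s 0) (bt P[i]) (s 2) .stay .right .stay := by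
  have h : (st P (9 + i) (by omega)).val = 9 + i := rfl
  have h' : (st P (9 + i) (by omega)).val - 9 = i := by rw [h]; omega
  rw [dG, if_neg (by rw [h]; omega), if_neg (by rw [h]; omega), if_neg (by rw [h]; omega),
    if_neg (by rw [h]; omega), if_neg (by rw [h]; omega), if_neg (by rw [h]; omega),
    dif_pos (by rw [h']; exact hi)]
  simp only [h']
  rfl

theorem dGe (s : Fin 3 → Sym 0) :
    dG P (st P (9 + P.length) (by omega)) s =
      act3 (st P 6 (by omega)) (s 0) (bt false) (s 2) .stay .right .stay := by
  have h : (st P (9 + P.length) (by omega)).val = 9 + P.length := rfl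
  rw [dG, if_neg (by rw [h]; omega), if_neg (by rw [h]; omega), if_neg (by rw [h]; omega),
    if_neg (by rw [h]; omega), if_neg (by rw [h]; omega), if_neg (by rw [h]; omega),
    dif_neg (by rw [h]; omega)]

/-- a run of the machine -/
def Run (A : Set (List Bool)) (m : ℕ) (c c' : Cfg 0 0 (P.length + 4)) : Prop :=
  (stp (dG P) A)^[m] c = c'

variable {P} {A : Set (List Bool)}

theorem Run.trans {m m' : ℕ} {c c' c'' : Cfg 0 0 (P.length + 4)} (h : Run P A m c c')
    (h' : Run P A m' c' c'') : Run P A (m + m') c c'' := by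
  rw [Run] at h h'
  rw [Run, Nat.add_comm m m', Function.iterate_add_apply, h, h']

theorem Run.one {c c' : Cfg 0 0 (P.length + 4)} {i : ℕ} (hi : c.state.val = i) (h4 : i ≠ 4)
    (h5 : i ≠ 5) (h1 : i ≠ 1) (h : c.act (dG P c.state c.read) = c') : Run P A 1 c c' := by
  have e4 : c.state ≠ 4 := ne_num hi (val4 _) h4
  have e5 : c.state ≠ 5 := ne_num hi (val5 _) h5
  have e1 : c.state ≠ 1 := ne_num hi (val1 _) h1
  rw [Run, Function.iterate_one, stp, if_neg (by tauto), if_neg e1]
  exact h

theorem not_halt1 (n : ℕ) : ¬ ((1 : St n) = 4 ∨ (1 : St n) = 5) := by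
  rintro (h | h)
  · exact ne_num (val1 n) (val4 n) (by norm_num) h
  · exact ne_num (val1 n) (val5 n) (by norm_num) h

theorem Run.yes {t0 : ℕ → Sym 0} {h0 : ℕ} {l o : List Bool} (h : l ∈ A) :
    Run P A 1 (cf 1 t0 h0 l o) (cf 2 t0 h0 l o) := by
  have e : ¬ ((cf (1 : St (P.length + 4)) t0 h0 l o).state = 4 ∨
    (cf (1 : St (P.length + 4)) t0 h0 l o).state = 5) := not_halt1 _
  rw [Run, Function.iterate_one, stp, if_neg e, if_pos (cf_state _ _ _ _ _)]
  exact ask_yes h

theorem Run.no {t0 : ℕ → Sym 0} {h0 : ℕ} {l o : List Bool} (h : l ∉ A) :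
    Run P A 1 (cf 1 t0 h0 l o) (cf 3 t0 h0 l o) := by
  have e : ¬ ((cf (1 : St (P.length + 4)) t0 h0 l o).state = 4 ∨
    (cf (1 : St (P.length + 4)) t0 h0 l o).state = 5) := not_halt1 _
  rw [Run, Function.iterate_one, stp, if_neg e, if_pos (cf_state _ _ _ _ _)]
  exact ask_no h

theorem run_start (u : List Bool) :
    Run P A 1 (cf 0 (tp u) 0 [] []) (cf (st P 9 (by omega)) (tp u) 0 [] []) := by
  refine Run.one (val0 _) (by norm_num) (by norm_num) (by norm_num) ?_
  rw [cf_state, dG0, cf_read0, cf_read1, cf_read2, act_00, update_self]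
  rfl

theorem run_prefix1 (u : List Bool) {i : ℕ} (hi : i < P.length) :
    Run P A 1 (cf (st P (9 + i) (by omega)) (tp u) 0 (P.take i) [])
      (cf (st P (9 + (i + 1)) (by omega)) (tp u) 0 (P.take (i + 1)) []) := by
  refine Run.one (i := 9 + i) rfl (by omega) (by omega) (by omega) ?_
  rw [cf_state, dGp P hi, cf_read0, cf_read2, act_10, update_self,
    List.take_succ_eq_append_getElem hi]
  rfl

theorem run_prefix (u : List Bool) (i : ℕ) (hi : i ≤ P.length) :
    Run P A i (cf (st P 9 (by omega)) (tp u) 0 [] [])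
      (cf (st P (9 + i) (by omega)) (tp u) 0 (P.take i) []) := by
  induction i with
  | zero => exact rfl
  | succ i ih => exact (ih (by omega)).trans (run_prefix1 u (by omega))

theorem run_prefix_end (u : List Bool) :
    Run P A 1 (cf (st P (9 + P.length) (by omega)) (tp u) 0 P [])
      (cf (st P 6 (by omega)) (tp u) 0 (P ++ [false]) []) := by
  refine Run.one (i := 9 + P.length) rfl (by omega) (by omega) (by omega) ?_
  rw [cf_state, dGe P, cf_read0, cf_read2, act_10, update_self]
  rfl

theorem run_copyA (u l o : List Bool) {i : ℕ} (hi : i < u.length) :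
    Run P A 1 (cf (st P 6 (by omega)) (tp u) i l o)
      (cf (st P 7 (by omega)) (tp u) i (l ++ [u[i]]) o) := by
  refine Run.one (i := 6) rfl (by omega) (by omega) (by omega) ?_
  have h : g6 P (cf (st P 6 (by omega)) (tp u) i l o).read =
      act3 (st P 7 (by omega)) (tp u i) (bt u[i]) none .stay .right .stay := by
    rw [g6, cf_read0, cf_read2, tp_get u hi]
  rw [cf_state, dG6, h, act_10, update_self]
  rfl

theorem run_copyB (u l o : List Bool) (i : ℕ) :
    Run P A 1 (cf (st P 7 (by omega)) (tp u) i l o)
      (cf (st P 6 (by omega)) (tp u) (i + 1) (l ++ [false]) o) := by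
  refine Run.one (i := 7) rfl (by omega) (by omega) (by omega) ?_
  rw [cf_state, dG7, cf_read0, cf_read2, act_10, update_self]
  rfl

theorem run_copy_end (u l o : List Bool) :
    Run P A 1 (cf (st P 6 (by omega)) (tp u) u.length l o)
      (cf (st P 8 (by omega)) (tp u) u.length l o) := by
  refine Run.one (i := 6) rfl (by omega) (by omega) (by omega) ?_
  have h : g6 P (cf (st P 6 (by omega)) (tp u) u.length l o).read =
      act3 (st P 8 (by omega)) (tp u u.length) none none .stay .stay .stay := by
    rw [g6, cf_read0, cf_read1, cf_read2, tp_length]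
  rw [cf_state, dG6, h, act_00, update_self]
  rfl

theorem run_ask (t0 : ℕ → Sym 0) (h0 : ℕ) (l o : List Bool) :
    Run P A 1 (cf (st P 8 (by omega)) t0 h0 l o) (cf 1 t0 h0 (l ++ [true]) o) := by
  refine Run.one (i := 8) rfl (by omega) (by omega) (by omega) ?_
  rw [cf_state, dG8, cf_read0, cf_read2, act_10, update_self]
  rfl

theorem run_yes_unmarked (u l o : List Bool) :
    Run P A 1 (cf 2 (tp u) u.length l o)
      (cf (st P 8 (by omega)) (tp (u ++ [true])) u.length l o) := by
  refine Run.one (val2 _) (by norm_num) (by norm_num) (by norm_num) ?_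
  have h : g23 P true (cf (2 : St (P.length + 4)) (tp u) u.length l o).read =
      act3 (st P 8 (by omega)) (bt true) none none .stay .stay .stay := by
    rw [g23, cf_read0, cf_read1, cf_read2, tp_length]
    rfl
  rw [cf_state, dG2, h, act_00, update_mark]
  rfl

theorem run_yes_marked (u l o : List Bool) :
    Run P A 1 (cf 2 (tp (u ++ [true])) u.length l o)
      (cf (st P 8 (by omega)) (tp u) u.length l (o ++ [true])) := by
  refine Run.one (val2 _) (by norm_num) (by norm_num) (by norm_num) ?_
  have h : g23 P true (cf (2 : St (P.length + 4)) (tp (u ++ [true])) u.length l o).read =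
      act3 (st P 8 (by omega)) none none (bt true) .stay .stay .right := by
    rw [g23, cf_read0, cf_read1, mark_read]
    rfl
  rw [cf_state, dG2, h, act_01, update_unmark]
  rfl

theorem run_no_unmarked (u l o : List Bool) :
    Run P A 1 (cf 3 (tp u) u.length l o) (cf 4 (tp u) u.length l o) := by
  refine Run.one (val3 _) (by norm_num) (by norm_num) (by norm_num) ?_
  have h : g23 P false (cf (3 : St (P.length + 4)) (tp u) u.length l o).read =
      act3 4 (tp u u.length) none none .stay .stay .stay := by
    rw [g23, cf_read0, cf_read1, cf_read2, tp_length]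
    rfl
  rw [cf_state, dG3, h, act_00, update_self]
  rfl

theorem run_no_marked (u l o : List Bool) :
    Run P A 1 (cf 3 (tp (u ++ [true])) u.length l o)
      (cf (st P 8 (by omega)) (tp u) u.length l (o ++ [false])) := by
  refine Run.one (val3 _) (by norm_num) (by norm_num) (by norm_num) ?_
  have h : g23 P false (cf (3 : St (P.length + 4)) (tp (u ++ [true])) u.length l o).read =
      act3 (st P 8 (by omega)) none none (bt false) .stay .stay .right := by
    rw [g23, cf_read0, cf_read1, mark_read]
    rfl
  rw [cf_state, dG3, h, act_01, update_unmark]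
  rfl

theorem run_copy (u : List Bool) (i : ℕ) (hi : i ≤ u.length) :
    Run P A (1 + P.length + 1 + 2 * i) (cf 0 (tp u) 0 [] [])
      (cf (st P 6 (by omega)) (tp u) i (P ++ false :: cd (u.take i)) []) := by
  induction i with
  | zero =>
    have h1 := run_prefix (A := A) (P := P) u P.length le_rfl
    rw [List.take_length] at h1
    exact ((run_start u).trans h1).trans (run_prefix_end u)
  | succ i ih =>
    have h1 := (ih (by omega)).trans ((run_copyA u _ [] (i := i) (by omega)).trans
      (run_copyB u _ [] i))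
    have e : P ++ false :: cd (u.take (i + 1)) =
        P ++ false :: cd (u.take i) ++ [u[i]] ++ [false] := by
      rw [List.take_succ_eq_append_getElem (by omega), cd_append]
      simp [cd]
    rw [e]
    exact h1

theorem run_loop {u o : List Bool} (h : ∀ j, P ++ encT u j ∈ A ↔ Bit o j) (i : ℕ)
    (hi : i ≤ o.length) :
    Run P A (6 * i) (cf (st P 8 (by omega)) (tp u) u.length (P ++ encT u 0) [])
      (cf (st P 8 (by omega)) (tp u) u.length (P ++ encT u (2 * i)) (o.take i)) := by
  induction i with
  | zero => exact rfl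
  | succ i ih =>
    have hi' : i < o.length := by omega
    have h1 : P ++ encT u (2 * i + 1) ∈ A := (h _).2 (bit_odd.2 hi')
    have s1 := (ih (by omega)).trans (run_ask (tp u) u.length (P ++ encT u (2 * i)) (o.take i))
    rw [List.append_assoc, encT_append] at s1
    have s2 := (s1.trans (Run.yes h1)).trans
      (run_yes_unmarked u (P ++ encT u (2 * i + 1)) (o.take i))
    have s3 := s2.trans (run_ask _ u.length (P ++ encT u (2 * i + 1)) (o.take i))
    rw [List.append_assoc, encT_append] at s3
    have e1 : o.take (i + 1) = o.take i ++ [o[i]] := List.take_succ_eq_append_getElem hi'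
    have e2 : o[i]? = some o[i] := by simp [hi']
    have e3 : 6 * (i + 1) = 6 * i + 1 + 1 + 1 + 1 + 1 + 1 := by ring
    have e4 : 2 * (i + 1) = 2 * i + 1 + 1 := by ring
    rw [e1, e3, e4]
    cases hb : o[i]
    · have h2 : P ++ encT u (2 * i + 1 + 1) ∉ A := fun h3 => by
        have := bit_even.1 ((h _).1 h3)
        rw [e2, hb] at this
        simp at this
      exact (s3.trans (Run.no h2)).trans (run_no_marked u _ _)
    · have h2 : P ++ encT u (2 * i + 1 + 1) ∈ A := (h _).2 (bit_even.2 (by rw [e2, hb]))
      exact (s3.trans (Run.yes h2)).trans (run_yes_marked u _ _)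

theorem MP_outputs {u o : List Bool} (h : ∀ j, P ++ encT u j ∈ A ↔ Bit o j) {T : ℕ}
    (hT : 2 * u.length + 6 * o.length + P.length + 10 ≤ T) : (MP P).Outputs A u T o := by
  have s1 := run_copy (A := A) (P := P) u u.length le_rfl
  rw [List.take_length] at s1
  have e0 : P ++ false :: cd u = P ++ encT u 0 := by simp [encT]
  rw [e0] at s1
  have s2 := (s1.trans (run_copy_end u (P ++ encT u 0) [])).trans (run_loop h o.length le_rfl)
  rw [List.take_length] at s2
  have s3 := s2.trans (run_ask (tp u) u.length _ _)
  rw [List.append_assoc, encT_append] at s3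
  have h1 : P ++ encT u (2 * o.length + 1) ∉ A := fun h3 => by
    have := bit_odd.1 ((h _).1 h3)
    omega
  have s4 := (s3.trans (Run.no h1)).trans (run_no_unmarked u _ _)
  refine ⟨1 + P.length + 1 + 2 * u.length + 1 + 6 * o.length + 1 + 1 + 1, by omega, ?_⟩
  have s5 : ((MP P).step A)^[1 + P.length + 1 + 2 * u.length + 1 + 6 * o.length + 1 + 1 + 1]
      (Cfg.init (MP P).k (MP P).g (MP P).n u) =
        cf (n := P.length + 4) 4 (tp u) u.length (P ++ encT u (2 * o.length + 1)) o := by
    have e : Cfg.init (MP P).k (MP P).g (MP P).n u = cf (n := P.length + 4) 0 (tp u) 0 [] [] :=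
      init_eq u
    rw [e]
    exact s4
  rw [s5]
  exact ⟨rfl, word_tp o⟩

end DG

open Pool.Agent.Helper79K.DM (Bit)

theorem exists_DTM_prefix (P : List Bool) : ∃ M : DTM, ∀ (A : Set (List Bool)) (u o : List Bool)
    (T : ℕ), (∀ j, P ++ encT u j ∈ A ↔ Bit o j) →
      2 * u.length + 6 * o.length + P.length + 10 ≤ T → M.Outputs A u T o :=
  ⟨DG.MP P, fun _ _ _ _ h hT => DG.MP_outputs h hT⟩

end Pool.Agent.Helper37Q
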