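import Pool.Agent.Helper37Q.MG

set_option autoImplicit false

/-!
# The machine which guesses a witness, for queries with a prefix

This is the machine `MR` of `Pool.Agent.Helper79K.DM.RM`, which first writes the word `P` on the
query tape; the length `B` of the witnesses is given by the answers of the oracle.
-/

namespace Pool.Agent.Helper37Q

open Pool.Agent.Helper76.Dim

namespace RG

open Pool.Agent.Helper79K.DM (bt act3 cg cg_state cg_read0 cg_read2 cg_act cg_ask_yes cg_ask_no
  pre encH_eq upd_end upd_flag upd_same cf init_eq Reach.step)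

variable (P : List Bool)

/-- the state number `i` -/
def st (i : ℕ) (h : i < P.length + 11) : St (P.length + 5) := ⟨i, h⟩

/-- copying -/
def r6 (s : Fin 3 → Sym 0) : Action 0 0 (P.length + 5) :=
  match s 0 with
  | some (Sum.inl b) => act3 (st P 7 (by omega)) (s 0) (bt b) (s 2) .stay .right .stay
  | _ => act3 (st P 8 (by omega)) (s 0) (bt true) (s 2) .stay .right .stay

/-- after the answer yes -/
def r2 (s : Fin 3 → Sym 0) : Set (Action 0 0 (P.length + 5)) :=
  match s 2 with
  | some _ => {act3 4 (s 0) (s 1) (s 2) .stay .stay .stay}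
  | none => {act3 (st P 9 (by omega)) (s 0) (bt false) (s 2) .stay .right .stay,
      act3 (st P 9 (by omega)) (s 0) (bt true) (s 2) .stay .right .stay}

/-- after the answer no -/
def r3 (s : Fin 3 → Sym 0) : Action 0 0 (P.length + 5) :=
  match s 2 with
  | some _ => act3 5 (s 0) (s 1) (s 2) .stay .stay .stay
  | none => act3 1 (s 0) (bt true) (bt true) .stay .stay .stay

/-- the transition function -/
def dR (q : St (P.length + 5)) (s : Fin 3 → Sym 0) : Set (Action 0 0 (P.length + 5)) :=
  if q.val = 0 then {act3 (st P 10 (by omega)) (s 0) (s 1) (s 2) .stay .stay .stay}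
  else if q.val = 2 then r2 P s
  else if q.val = 3 then {r3 P s}
  else if q.val = 6 then {r6 P s}
  else if q.val = 7 then {act3 (st P 6 (by omega)) (s 0) (bt false) (s 2) .right .right .stay}
  else if q.val = 8 then {act3 (st P 9 (by omega)) (s 0) (bt true) (s 2) .stay .right .stay}
  else if q.val = 9 then {act3 1 (s 0) (bt false) (s 2) .stay .stay .stay}
  else if h : q.val - 10 < P.length then
    {act3 (st P (q.val + 1) (by omega)) (s 0) (bt P[q.val - 10]) (s 2) .stay .right .stay}
  else {act3 (st P 6 (by omega)) (s 0) (bt true) (s 2) .stay .right .stay}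

/-- The machine which writes `P` and guesses a witness for its input. -/
def MW : NTM := ⟨0, 0, P.length + 5, dR P⟩

/-- the step relation given by the transition function -/
def SR (A : Set (List Bool)) (c c' : Cfg 0 0 (P.length + 5)) : Prop :=
  c.state ≠ 4 ∧ c.state ≠ 5 ∧
    (c.state = 1 → c' = c.ask A) ∧ (c.state ≠ 1 → ∃ a ∈ dR P c.state c.read, c' = c.act a)

theorem MW_step {A : Set (List Bool)} {c c' : Cfg 0 0 (P.length + 5)} :
    (MW P).Step A c c' ↔ SR P A c c' := Iff.rfl

theorem dR0 (s : Fin 3 → Sym 0) :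
    dR P 0 s = {act3 (st P 10 (by omega)) (s 0) (s 1) (s 2) .stay .stay .stay} :=
  if_pos (val0 _)

theorem dR2 (s : Fin 3 → Sym 0) : dR P 2 s = r2 P s := by
  rw [dR, if_neg (by rw [val2]; norm_num), if_pos (val2 _)]

theorem dR3 (s : Fin 3 → Sym 0) : dR P 3 s = {r3 P s} := by
  rw [dR, if_neg (by rw [val3]; norm_num), if_neg (by rw [val3]; norm_num), if_pos (val3 _)]

theorem dR6 (s : Fin 3 → Sym 0) : dR P (st P 6 (by omega)) s = {r6 P s} := rfl

theorem dR7 (s : Fin 3 → Sym 0) : dR P (st P 7 (by omega)) s =
    {act3 (st P 6 (by omega)) (s 0) (bt false) (s 2) .right .right .stay} := rfl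

theorem dR8 (s : Fin 3 → Sym 0) : dR P (st P 8 (by omega)) s =
    {act3 (st P 9 (by omega)) (s 0) (bt true) (s 2) .stay .right .stay} := rfl

theorem dR9 (s : Fin 3 → Sym 0) : dR P (st P 9 (by omega)) s =
    {act3 1 (s 0) (bt false) (s 2) .stay .stay .stay} := rfl

theorem dRp {i : ℕ} (hi : i < P.length) (s : Fin 3 → Sym 0) :
    dR P (st P (10 + i) (by omega)) s =
      {act3 (st P (10 + (i + 1)) (by omega)) (s 0) (bt P[i]) (s 2) .stay .right .stay} := by
  have h : (st P (10 + i) (by omega)).val = 10 + i := rfl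
  have h' : (st P (10 + i) (by omega)).val - 10 = i := by rw [h]; omega
  rw [dR, if_neg (by rw [h]; omega), if_neg (by rw [h]; omega), if_neg (by rw [h]; omega),
    if_neg (by rw [h]; omega), if_neg (by rw [h]; omega), if_neg (by rw [h]; omega),
    if_neg (by rw [h]; omega), dif_pos (by rw [h']; exact hi)]
  simp only [h']
  rfl

theorem dRe (s : Fin 3 → Sym 0) :
    dR P (st P (10 + P.length) (by omega)) s =
      {act3 (st P 6 (by omega)) (s 0) (bt true) (s 2) .stay .right .stay} := by
  have h : (st P (10 + P.length) (by omega)).val = 10 + P.length := rfl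
  rw [dR, if_neg (by rw [h]; omega), if_neg (by rw [h]; omega), if_neg (by rw [h]; omega),
    if_neg (by rw [h]; omega), if_neg (by rw [h]; omega), if_neg (by rw [h]; omega),
    if_neg (by rw [h]; omega), dif_neg (by rw [h]; omega)]

/-- The possible configurations after `m` steps. -/
inductive Fm (A : Set (List Bool)) (x : List Bool) (B : ℕ) : ℕ → Cfg 0 0 (P.length + 5) → Prop
  | f0 : Fm A x B 0 (cg 0 x 0 [] 0 [])
  | fp (i : ℕ) (hi : i ≤ P.length) : Fm A x B (1 + i)
      (cg (st P (10 + i) (by omega)) x 0 (P.take i) (P.take i).length [])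
  | f6 (i : ℕ) (hi : i ≤ x.length) : Fm A x B (2 + P.length + 2 * i)
      (cg (st P 6 (by omega)) x i (P ++ true :: cd (x.take i))
        (P ++ true :: cd (x.take i)).length [])
  | f7 (i : ℕ) (hi : i < x.length) : Fm A x B (3 + P.length + 2 * i)
      (cg (st P 7 (by omega)) x i (P ++ true :: cd (x.take i) ++ [x[i]])
        (P ++ true :: cd (x.take i) ++ [x[i]]).length [])
  | f8 : Fm A x B (2 * x.length + P.length + 3)
      (cg (st P 8 (by omega)) x x.length (P ++ true :: cd x ++ [true])
        (P ++ true :: cd x ++ [true]).length [])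
  | f9 (y : List Bool) (hy : y.length ≤ B) : Fm A x B (2 * x.length + P.length + 4 + 3 * y.length)
      (cg (st P 9 (by omega)) x x.length (P ++ pre x ++ y) (P ++ pre x ++ y).length [])
  | f1 (y : List Bool) (hy : y.length ≤ B) : Fm A x B (2 * x.length + P.length + 5 + 3 * y.length)
      (cg 1 x x.length (P ++ pre x ++ y ++ [false]) (P ++ pre x ++ y).length [])
  | f2 (y : List Bool) (hy : y.length < B) : Fm A x B (2 * x.length + P.length + 6 + 3 * y.length)
      (cg 2 x x.length (P ++ pre x ++ y ++ [false]) (P ++ pre x ++ y).length [])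
  | f3 (y : List Bool) (hy : y.length = B) : Fm A x B (2 * x.length + P.length + 6 + 3 * y.length)
      (cg 3 x x.length (P ++ pre x ++ y ++ [false]) (P ++ pre x ++ y).length [])
  | g1 (y : List Bool) (hy : y.length = B) : Fm A x B (2 * x.length + P.length + 7 + 3 * y.length)
      (cg 1 x x.length (P ++ pre x ++ y ++ [true]) (P ++ pre x ++ y).length [true])
  | g2 (y : List Bool) (hy : y.length = B) (h : P ++ encH x y true ∈ A) :
      Fm A x B (2 * x.length + P.length + 8 + 3 * y.length)
      (cg 2 x x.length (P ++ pre x ++ y ++ [true]) (P ++ pre x ++ y).length [true])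
  | g3 (y : List Bool) (hy : y.length = B) :
      Fm A x B (2 * x.length + P.length + 8 + 3 * y.length)
      (cg 3 x x.length (P ++ pre x ++ y ++ [true]) (P ++ pre x ++ y).length [true])
  | h4 (y : List Bool) (hy : y.length = B) (h : P ++ encH x y true ∈ A) :
      Fm A x B (2 * x.length + P.length + 9 + 3 * y.length)
      (cg 4 x x.length (P ++ pre x ++ y ++ [true]) (P ++ pre x ++ y).length [true])
  | h5 (y : List Bool) (hy : y.length = B) :
      Fm A x B (2 * x.length + P.length + 9 + 3 * y.length)
      (cg 5 x x.length (P ++ pre x ++ y ++ [true]) (P ++ pre x ++ y).length [true])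

variable {P}

theorem Fm.bound {A : Set (List Bool)} {x : List Bool} {B m : ℕ} {c : Cfg 0 0 (P.length + 5)}
    (h : Fm P A x B m c) : m ≤ 3 * B + 2 * x.length + P.length + 20 := by
  cases h <;> omega

theorem Fm.accept {A : Set (List Bool)} {x : List Bool} {B m : ℕ} {c : Cfg 0 0 (P.length + 5)}
    (h : Fm P A x B m c) (h4 : c.state = 4) : ∃ y, y.length = B ∧ P ++ encH x y true ∈ A := by
  have hv : c.state.val = 4 := by rw [h4]; exact val4 _
  cases h with
  | f0 => exact absurd hv (by rw [cg_state, val0]; norm_num)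
  | fp i hi => exact absurd hv (by show ¬ (10 + i = 4); omega)
  | f6 i hi => exact absurd hv (by show ¬ ((6 : ℕ) = 4); norm_num)
  | f7 i hi => exact absurd hv (by show ¬ ((7 : ℕ) = 4); norm_num)
  | f8 => exact absurd hv (by show ¬ ((8 : ℕ) = 4); norm_num)
  | f9 y hy => exact absurd hv (by show ¬ ((9 : ℕ) = 4); norm_num)
  | f1 y hy => exact absurd hv (by rw [cg_state, val1]; norm_num)
  | f2 y hy => exact absurd hv (by rw [cg_state, val2]; norm_num)
  | f3 y hy => exact absurd hv (by rw [cg_state, val3]; norm_num)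
  | g1 y hy => exact absurd hv (by rw [cg_state, val1]; norm_num)
  | g2 y hy h => exact absurd hv (by rw [cg_state, val2]; norm_num)
  | g3 y hy => exact absurd hv (by rw [cg_state, val3]; norm_num)
  | h4 y hy h => exact ⟨y, hy, h⟩
  | h5 y hy => exact absurd hv (by rw [cg_state, val5]; norm_num)

theorem encP (x y : List Bool) (f : Bool) :
    P ++ pre x ++ y ++ [f] = P ++ encH x y f := by
  rw [encH_eq]
  simp

section steps

variable {A : Set (List Bool)} {x : List Bool} {B : ℕ}

theorem act_f0 (x : List Bool) : (cg (0 : St (P.length + 5)) x 0 [] 0 []).act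
    (act3 (st P 10 (by omega)) (tp x 0) (tp [] 0) (tp [] 0) .stay .stay .stay) =
      cg (st P 10 (by omega)) x 0 [] 0 [] :=
  cg_act _ _ _ _ _ _ (upd_same _ _) (upd_same _ _)

theorem act_fp (x : List Bool) {i : ℕ} (hi : i < P.length) :
    (cg (st P (10 + i) (by omega)) x 0 (P.take i) (P.take i).length []).act
      (act3 (st P (10 + (i + 1)) (by omega)) (tp x 0) (bt P[i]) (tp [] 0) .stay .right .stay) =
    cg (st P (10 + (i + 1)) (by omega)) x 0 (P.take (i + 1)) (P.take (i + 1)).length [] := by
  rw [cg_act _ _ _ _ _ _ (upd_end P[i]) (upd_same _ _), List.take_succ_eq_append_getElem hi,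
    List.length_append]
  rfl

theorem act_fe (x : List Bool) :
    (cg (st P (10 + P.length) (by omega)) x 0 P P.length []).act
      (act3 (st P 6 (by omega)) (tp x 0) (bt true) (tp [] 0) .stay .right .stay) =
    cg (st P 6 (by omega)) x 0 (P ++ true :: cd (x.take 0)) (P ++ true :: cd (x.take 0)).length
      [] := by
  rw [cg_act _ _ _ _ _ _ (upd_end true) (upd_same _ _)]
  simp [Dir.move, cd]

theorem act_f6 (x : List Bool) {i : ℕ} (hi : i < x.length) :
    (cg (st P 6 (by omega)) x i (P ++ true :: cd (x.take i))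
      (P ++ true :: cd (x.take i)).length []).act
      (r6 P (cg (st P 6 (by omega)) x i (P ++ true :: cd (x.take i))
        (P ++ true :: cd (x.take i)).length []).read) =
    cg (st P 7 (by omega)) x i (P ++ true :: cd (x.take i) ++ [x[i]])
      (P ++ true :: cd (x.take i) ++ [x[i]]).length [] := by
  rw [r6, cg_read0, cg_read2, tp_get x hi]
  simp only []
  rw [← tp_get x hi, cg_act _ _ _ _ _ _ (upd_end x[i]) (upd_same _ _)]
  simp [Dir.move, add_assoc]

theorem act_f6' (x : List Bool) :
    (cg (st P 6 (by omega)) x x.length (P ++ true :: cd x) (P ++ true :: cd x).length []).act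
      (r6 P (cg (st P 6 (by omega)) x x.length (P ++ true :: cd x)
        (P ++ true :: cd x).length []).read) =
    cg (st P 8 (by omega)) x x.length (P ++ true :: cd x ++ [true])
      (P ++ true :: cd x ++ [true]).length [] := by
  rw [r6, cg_read0, cg_read2, tp_length x]
  simp only []
  rw [← tp_length x, cg_act _ _ _ _ _ _ (upd_end true) (upd_same _ _)]
  simp [Dir.move, add_assoc]

theorem act_f7 (x : List Bool) {i : ℕ} (hi : i < x.length) :
    (cg (st P 7 (by omega)) x i (P ++ true :: cd (x.take i) ++ [x[i]])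
      (P ++ true :: cd (x.take i) ++ [x[i]]).length []).act
      (act3 (st P 6 (by omega)) (tp x i) (bt false) (tp [] 0) .right .right .stay) =
    cg (st P 6 (by omega)) x (i + 1) (P ++ true :: cd (x.take (i + 1)))
      (P ++ true :: cd (x.take (i + 1))).length [] := by
  have e : P ++ true :: cd (x.take (i + 1)) =
      (P ++ true :: cd (x.take i) ++ [x[i]]) ++ [false] := by
    rw [List.take_succ_eq_append_getElem hi, cd_append]
    simp [cd]
  rw [cg_act _ _ _ _ _ _ (upd_end false) (upd_same _ _), e]
  simp [Dir.move, add_assoc]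

theorem act_f8 (x : List Bool) :
    (cg (st P 8 (by omega)) x x.length (P ++ true :: cd x ++ [true])
      (P ++ true :: cd x ++ [true]).length []).act
      (act3 (st P 9 (by omega)) (tp x x.length) (bt true) (tp [] 0) .stay .right .stay) =
    cg (st P 9 (by omega)) x x.length (P ++ pre x ++ []) (P ++ pre x ++ []).length [] := by
  have e : P ++ pre x ++ [] = (P ++ true :: cd x ++ [true]) ++ [true] := by simp [pre]
  rw [cg_act _ _ _ _ _ _ (upd_end true) (upd_same _ _), e]
  simp [Dir.move, add_assoc]

theorem act_f9 (x y : List Bool) :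
    (cg (st P 9 (by omega)) x x.length (P ++ pre x ++ y) (P ++ pre x ++ y).length []).act
      (act3 1 (tp x x.length) (bt false) (tp [] 0) .stay .stay .stay) =
    cg 1 x x.length (P ++ pre x ++ y ++ [false]) (P ++ pre x ++ y).length [] := by
  rw [cg_act _ _ _ _ _ _ (upd_end false) (upd_same _ _)]
  rfl

theorem act_f2 (x y : List Bool) (b : Bool) :
    (cg (2 : St (P.length + 5)) x x.length (P ++ pre x ++ y ++ [false])
      (P ++ pre x ++ y).length []).act
      (act3 (st P 9 (by omega)) (tp x x.length) (bt b) (tp [] 0) .stay .right .stay) =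
    cg (st P 9 (by omega)) x x.length (P ++ pre x ++ (y ++ [b]))
      (P ++ pre x ++ (y ++ [b])).length [] := by
  have e : P ++ pre x ++ (y ++ [b]) = P ++ pre x ++ y ++ [b] := by simp
  rw [cg_act _ _ _ _ _ _ (upd_flag false b) (upd_same _ _), e]
  simp [Dir.move, add_assoc]

theorem act_f3 (x y : List Bool) :
    (cg (3 : St (P.length + 5)) x x.length (P ++ pre x ++ y ++ [false])
      (P ++ pre x ++ y).length []).act
      (act3 1 (tp x x.length) (bt true) (bt true) .stay .stay .stay) =
    cg 1 x x.length (P ++ pre x ++ y ++ [true]) (P ++ pre x ++ y).length [true] := by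
  rw [cg_act _ _ _ _ _ _ (upd_flag false true) (upd_end (l := []) true)]
  rfl

theorem act_g (x y : List Bool) (q q' : St (P.length + 5)) :
    (cg q x x.length (P ++ pre x ++ y ++ [true]) (P ++ pre x ++ y).length [true]).act
      (act3 q' (tp x x.length) (tp (P ++ pre x ++ y ++ [true]) (P ++ pre x ++ y).length)
        (tp [true] 0) .stay .stay .stay) =
    cg q' x x.length (P ++ pre x ++ y ++ [true]) (P ++ pre x ++ y).length [true] := by
  rw [cg_act _ _ _ _ _ _ (upd_same _ _) (upd_same _ _)]
  rfl

/-- the actions after yes, if the flag is not set -/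
theorem r2_mem {s : Fin 3 → Sym 0} (h : s 2 = none) {a : Action 0 0 (P.length + 5)} :
    a ∈ r2 P s ↔ a = act3 (st P 9 (by omega)) (s 0) (bt false) (s 2) .stay .right .stay ∨
      a = act3 (st P 9 (by omega)) (s 0) (bt true) (s 2) .stay .right .stay := by
  rw [r2, h]
  rfl

theorem r2_mem' {s : Fin 3 → Sym 0} (h : s 2 = bt true) {a : Action 0 0 (P.length + 5)} :
    a ∈ r2 P s ↔ a = act3 4 (s 0) (s 1) (s 2) .stay .stay .stay := by
  rw [r2, h]
  rfl

theorem r3_eq {s : Fin 3 → Sym 0} (h : s 2 = none) :
    r3 P s = act3 1 (s 0) (bt true) (bt true) .stay .stay .stay := by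
  rw [r3, h]

theorem r3_eq' {s : Fin 3 → Sym 0} (h : s 2 = bt true) :
    r3 P s = act3 5 (s 0) (s 1) (s 2) .stay .stay .stay := by
  rw [r3, h]
  rfl

theorem mem0 (x : List Bool) :
    act3 (st P 10 (by omega)) (tp x 0) (tp [] 0) (tp [] 0) .stay .stay .stay ∈
      dR P 0 (cg (0 : St (P.length + 5)) x 0 [] 0 []).read := by
  rw [dR0]
  rfl

theorem mem2 (x y : List Bool) (b : Bool) :
    act3 (st P 9 (by omega)) (tp x x.length) (bt b) (tp [] 0) .stay .right .stay ∈
      dR P 2 (cg (2 : St (P.length + 5)) x x.length (P ++ pre x ++ y ++ [false])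
        (P ++ pre x ++ y).length []).read := by
  rw [dR2, r2_mem rfl]
  cases b
  · exact Or.inl rfl
  · exact Or.inr rfl

theorem mem3 (x y : List Bool) :
    act3 1 (tp x x.length) (bt true) (bt true) .stay .stay .stay ∈
      dR P 3 (cg (3 : St (P.length + 5)) x x.length (P ++ pre x ++ y ++ [false])
        (P ++ pre x ++ y).length []).read := by
  rw [dR3, r3_eq rfl]
  rfl

theorem mem2' (x y : List Bool) :
    act3 4 (tp x x.length) (tp (P ++ pre x ++ y ++ [true]) (P ++ pre x ++ y).length) (tp [true] 0)
        .stay .stay .stay ∈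
      dR P 2 (cg (2 : St (P.length + 5)) x x.length (P ++ pre x ++ y ++ [true])
        (P ++ pre x ++ y).length [true]).read := by
  rw [dR2, r2_mem' rfl]
  rfl

/-- One step from a possible configuration. -/
theorem Fm.step (hclk : ∀ y : List Bool, P ++ encH x y false ∈ A ↔ y.length < B)
    {m : ℕ} {c c' : Cfg 0 0 (P.length + 5)} (h : Fm P A x B m c) (hs : SR P A c c') :
    Fm P A x B (m + 1) c' := by
  obtain ⟨s4, s5, s1, s0⟩ := hs
  cases h with
  | f0 =>
    obtain ⟨a, ha, rfl⟩ := s0 (ne_num (val0 _) (val1 _) (by norm_num))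
    rw [cg_state, dR0] at ha
    have ha' : a = act3 (st P 10 (by omega)) (tp x 0) (tp [] 0) (tp [] 0) .stay .stay .stay := ha
    rw [ha', act_f0]
    exact Fm.fp 0 (Nat.zero_le _)
  | fp i hi =>
    obtain ⟨a, ha, rfl⟩ := s0 (ne_num (i := 10 + i) rfl (val1 _) (by omega))
    rw [cg_state] at ha
    rcases lt_or_eq_of_le hi with h1 | h1
    · rw [dRp P h1] at ha
      have ha' : a = act3 (st P (10 + (i + 1)) (by omega)) (tp x 0) (bt P[i]) (tp [] 0)
        .stay .right .stay := ha
      rw [ha', act_fp x h1]
      exact Fm.fp (i + 1) h1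
    · subst h1
      rw [dRe P] at ha
      have ha' : a = act3 (st P 6 (by omega)) (tp x 0) (bt true) (tp [] 0)
        .stay .right .stay := ha
      rw [ha', List.take_length, act_fe x,
        show 1 + P.length + 1 = 2 + P.length + 2 * 0 by ring]
      exact Fm.f6 0 (Nat.zero_le _)
  | f6 i hi =>
    obtain ⟨a, ha, rfl⟩ := s0 (ne_num (i := 6) rfl (val1 _) (by norm_num))
    rw [cg_state, dR6] at ha
    have ha' : a = r6 P _ := ha
    rw [ha']
    rcases lt_or_eq_of_le hi with h1 | h1
    · rw [act_f6 x h1, show 2 + P.length + 2 * i + 1 = 3 + P.length + 2 * i by ring]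
      exact Fm.f7 i h1
    · subst h1
      rw [List.take_length, act_f6' x,
        show 2 + P.length + 2 * x.length + 1 = 2 * x.length + P.length + 3 by ring]
      exact Fm.f8
  | f7 i hi =>
    obtain ⟨a, ha, rfl⟩ := s0 (ne_num (i := 7) rfl (val1 _) (by norm_num))
    rw [cg_state, dR7] at ha
    have ha' : a = act3 (st P 6 (by omega)) (tp x i) (bt false) (tp [] 0)
      .right .right .stay := ha
    rw [ha', act_f7 x hi, show 3 + P.length + 2 * i + 1 = 2 + P.length + 2 * (i + 1) by ring]
    exact Fm.f6 (i + 1) hi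
  | f8 =>
    obtain ⟨a, ha, rfl⟩ := s0 (ne_num (i := 8) rfl (val1 _) (by norm_num))
    rw [cg_state, dR8] at ha
    have ha' : a = act3 (st P 9 (by omega)) (tp x x.length) (bt true) (tp [] 0)
      .stay .right .stay := ha
    rw [ha', act_f8 x]
    exact Fm.f9 [] (Nat.zero_le _)
  | f9 y hy =>
    obtain ⟨a, ha, rfl⟩ := s0 (ne_num (i := 9) rfl (val1 _) (by norm_num))
    rw [cg_state, dR9] at ha
    have ha' : a = act3 1 (tp x x.length) (bt false) (tp [] 0) .stay .stay .stay := ha
    rw [ha', act_f9 x, show 2 * x.length + P.length + 4 + 3 * y.length + 1 =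
      2 * x.length + P.length + 5 + 3 * y.length by ring]
    exact Fm.f1 y hy
  | f1 y hy =>
    rw [s1 rfl, show 2 * x.length + P.length + 5 + 3 * y.length + 1 =
      2 * x.length + P.length + 6 + 3 * y.length by ring]
    rcases lt_or_eq_of_le hy with h1 | h1
    · rw [cg_ask_yes (by rw [encP]; exact (hclk y).2 h1)]
      exact Fm.f2 y h1
    · rw [cg_ask_no (by rw [encP]; exact fun h2 => absurd ((hclk y).1 h2) (by omega))]
      exact Fm.f3 y h1
  | f2 y hy =>
    obtain ⟨a, ha, rfl⟩ := s0 (ne_num (val2 _) (val1 _) (by norm_num))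
    rw [cg_state, dR2, r2_mem rfl] at ha
    have ha' : a = act3 (st P 9 (by omega)) (tp x x.length) (bt false) (tp [] 0)
        .stay .right .stay ∨
      a = act3 (st P 9 (by omega)) (tp x x.length) (bt true) (tp [] 0) .stay .right .stay := ha
    have key : ∀ b : Bool, Fm P A x B (2 * x.length + P.length + 6 + 3 * y.length + 1)
        (cg (st P 9 (by omega)) x x.length (P ++ pre x ++ (y ++ [b]))
          (P ++ pre x ++ (y ++ [b])).length []) := by
      intro b
      have h1 := Fm.f9 (P := P) (A := A) (x := x) (B := B) (y ++ [b]) (by simp; omega)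
      have e : 2 * x.length + P.length + 4 + 3 * (y ++ [b]).length =
          2 * x.length + P.length + 6 + 3 * y.length + 1 := by simp; ring
      rwa [e] at h1
    rcases ha' with ha' | ha'
    · rw [ha', act_f2]
      exact key false
    · rw [ha', act_f2]
      exact key true
  | f3 y hy =>
    obtain ⟨a, ha, rfl⟩ := s0 (ne_num (val3 _) (val1 _) (by norm_num))
    rw [cg_state, dR3, r3_eq rfl] at ha
    have ha' : a = act3 1 (tp x x.length) (bt true) (bt true) .stay .stay .stay := ha
    rw [ha', act_f3, show 2 * x.length + P.length + 6 + 3 * y.length + 1 =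
      2 * x.length + P.length + 7 + 3 * y.length by ring]
    exact Fm.g1 y hy
  | g1 y hy =>
    rw [s1 rfl, show 2 * x.length + P.length + 7 + 3 * y.length + 1 =
      2 * x.length + P.length + 8 + 3 * y.length by ring]
    by_cases h1 : P ++ encH x y true ∈ A
    · rw [cg_ask_yes (by rw [encP]; exact h1)]
      exact Fm.g2 y hy h1
    · rw [cg_ask_no (by rw [encP]; exact h1)]
      exact Fm.g3 y hy
  | g2 y hy h =>
    obtain ⟨a, ha, rfl⟩ := s0 (ne_num (val2 _) (val1 _) (by norm_num))
    rw [cg_state, dR2, r2_mem' rfl] at ha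
    have ha' : a = act3 4 (tp x x.length) (tp (P ++ pre x ++ y ++ [true])
      (P ++ pre x ++ y).length) (tp [true] 0) .stay .stay .stay := ha
    rw [ha', act_g, show 2 * x.length + P.length + 8 + 3 * y.length + 1 =
      2 * x.length + P.length + 9 + 3 * y.length by ring]
    exact Fm.h4 y hy h
  | g3 y hy =>
    obtain ⟨a, ha, rfl⟩ := s0 (ne_num (val3 _) (val1 _) (by norm_num))
    rw [cg_state, dR3, r3_eq' rfl] at ha
    have ha' : a = act3 5 (tp x x.length) (tp (P ++ pre x ++ y ++ [true])
      (P ++ pre x ++ y).length) (tp [true] 0) .stay .stay .stay := ha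
    rw [ha', act_g, show 2 * x.length + P.length + 8 + 3 * y.length + 1 =
      2 * x.length + P.length + 9 + 3 * y.length by ring]
    exact Fm.h5 y hy
  | h4 y hy h => exact absurd rfl s4
  | h5 y hy => exact absurd rfl s5

theorem reach_Fm (hclk : ∀ y : List Bool, P ++ encH x y false ∈ A ↔ y.length < B)
    (m : ℕ) (c : Cfg 0 0 (P.length + 5)) (h : (MW P).Reach A x m c) : Fm P A x B m c := by
  induction m generalizing c with
  | zero =>
    have h' : c = Cfg.init 0 0 (P.length + 5) x := h
    rw [h', init_eq]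
    exact Fm.f0
  | succ m ih =>
    obtain ⟨c', h1, h2⟩ := h
    exact (ih c' h1).step hclk h2

/-- a step which is not a query -/
theorem SR.of {c c' : Cfg 0 0 (P.length + 5)} {i : ℕ} (hi : c.state.val = i) (h4 : i ≠ 4)
    (h5 : i ≠ 5) (h1 : i ≠ 1) {a : Action 0 0 (P.length + 5)} (ha : a ∈ dR P c.state c.read)
    (h : c.act a = c') : SR P A c c' :=
  ⟨ne_num hi (val4 _) h4, ne_num hi (val5 _) h5, fun h => absurd h (ne_num hi (val1 _) h1),
    fun _ => ⟨a, ha, h.symm⟩⟩

theorem SR.ask {c c' : Cfg 0 0 (P.length + 5)} (h1 : c.state = 1) (h : c.ask A = c') :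
    SR P A c c' :=
  ⟨by rw [h1]; exact ne_num (val1 _) (val4 _) (by norm_num),
    by rw [h1]; exact ne_num (val1 _) (val5 _) (by norm_num), fun _ => h.symm,
    fun h2 => absurd h1 h2⟩

theorem reach_prefix (i : ℕ) (hi : i ≤ P.length) : (MW P).Reach A x (1 + i)
    (cg (st P (10 + i) (by omega)) x 0 (P.take i) (P.take i).length []) := by
  induction i with
  | zero =>
    refine ⟨cg 0 x 0 [] 0 [], (init_eq (n := P.length + 5) x).symm, ?_⟩
    refine SR.of (i := 0) (val0 _) (by norm_num) (by norm_num) (by norm_num)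
      (a := act3 (st P 10 (by omega)) (tp x 0) (tp [] 0) (tp [] 0) .stay .stay .stay) (mem0 x)
      (act_f0 x)
  | succ i ih =>
    refine Reach.step (ih (by omega)) (SR.of (i := 10 + i) rfl (by omega) (by omega) (by omega)
      (a := act3 (st P (10 + (i + 1)) (by omega)) (tp x 0) (bt P[i]) (tp [] 0)
        .stay .right .stay) ?_ (act_fp x (by omega)))
    rw [cg_state, dRp P (by omega)]
    rfl

theorem reach_copy (i : ℕ) (hi : i ≤ x.length) : (MW P).Reach A x (2 + P.length + 2 * i)
    (cg (st P 6 (by omega)) x i (P ++ true :: cd (x.take i))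
      (P ++ true :: cd (x.take i)).length []) := by
  induction i with
  | zero =>
    have h1 := reach_prefix (A := A) (x := x) P.length le_rfl
    rw [List.take_length] at h1
    have h2 := Reach.step h1 (SR.of (A := A) (i := 10 + P.length) rfl (by omega) (by omega)
      (by omega) (a := act3 (st P 6 (by omega)) (tp x 0) (bt true) (tp [] 0)
        .stay .right .stay) (by
          rw [cg_state, dRe P]
          rfl) (act_fe x))
    rw [show 1 + P.length + 1 = 2 + P.length + 2 * 0 by ring] at h2
    exact h2
  | succ i ih =>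
    have h1 : (MW P).Reach A x (2 + P.length + 2 * i + 1)
        (cg (st P 7 (by omega)) x i (P ++ true :: cd (x.take i) ++ [x[i]])
        (P ++ true :: cd (x.take i) ++ [x[i]]).length []) :=
      Reach.step (ih (by omega)) (SR.of (i := 6) rfl (by norm_num) (by norm_num) (by norm_num)
        (a := r6 P _) rfl (act_f6 x (by omega)))
    exact Reach.step h1 (SR.of (i := 7) rfl (by norm_num) (by norm_num) (by norm_num)
        (a := act3 (st P 6 (by omega)) (tp x i) (bt false) (tp [] 0) .right .right .stay) rfl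
        (act_f7 x (by omega)))

theorem reach_guess (hclk : ∀ y : List Bool, P ++ encH x y false ∈ A ↔ y.length < B)
    (y : List Bool) (hy : y.length ≤ B) : ∃ m, (MW P).Reach A x m
    (cg (st P 9 (by omega)) x x.length (P ++ pre x ++ y) (P ++ pre x ++ y).length []) := by
  induction y using List.reverseRecOn with
  | nil =>
    have h1 := reach_copy (P := P) (A := A) (x := x) x.length le_rfl
    rw [List.take_length] at h1
    have h2 : (MW P).Reach A x (2 + P.length + 2 * x.length + 1) (cg (st P 8 (by omega)) x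
        x.length (P ++ true :: cd x ++ [true]) (P ++ true :: cd x ++ [true]).length []) :=
      Reach.step h1 (SR.of (i := 6) rfl (by norm_num) (by norm_num) (by norm_num)
        (a := r6 P _) rfl (act_f6' x))
    exact ⟨_, Reach.step h2 (SR.of (i := 8) rfl (by norm_num) (by norm_num) (by norm_num)
        (a := act3 (st P 9 (by omega)) (tp x x.length) (bt true) (tp [] 0) .stay .right .stay)
        rfl (act_f8 x))⟩
  | append_singleton y b ih =>
    have hy' : y.length < B := by simp at hy; omega
    obtain ⟨m, h1⟩ := ih hy'.le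
    have h2 : (MW P).Reach A x (m + 1) (cg 1 x x.length (P ++ pre x ++ y ++ [false])
        (P ++ pre x ++ y).length []) :=
      Reach.step h1 (SR.of (i := 9) rfl (by norm_num) (by norm_num) (by norm_num)
        (a := act3 1 (tp x x.length) (bt false) (tp [] 0) .stay .stay .stay) rfl
        (act_f9 x y))
    have h3 : (MW P).Reach A x (m + 1 + 1) (cg 2 x x.length (P ++ pre x ++ y ++ [false])
        (P ++ pre x ++ y).length []) :=
      Reach.step h2 (SR.ask rfl (cg_ask_yes (by rw [encP]; exact (hclk y).2 hy')))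
    refine ⟨_, Reach.step h3 (SR.of (i := 2) (val2 _) (by norm_num) (by norm_num) (by norm_num)
        (a := act3 (st P 9 (by omega)) (tp x x.length) (bt b) (tp [] 0) .stay .right .stay)
        (mem2 x y b) (act_f2 x y b))⟩

theorem MW_accepts (hclk : ∀ y : List Bool, P ++ encH x y false ∈ A ↔ y.length < B)
    {y : List Bool} (hy : y.length = B) (h : P ++ encH x y true ∈ A) : (MW P).Accepts A x := by
  obtain ⟨m, h1⟩ := reach_guess hclk y hy.le
  have h2 : (MW P).Reach A x (m + 1) (cg 1 x x.length (P ++ pre x ++ y ++ [false])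
      (P ++ pre x ++ y).length []) :=
    Reach.step h1 (SR.of (i := 9) rfl (by norm_num) (by norm_num) (by norm_num)
      (a := act3 1 (tp x x.length) (bt false) (tp [] 0) .stay .stay .stay) rfl
      (act_f9 x y))
  have h3 : (MW P).Reach A x (m + 1 + 1) (cg 3 x x.length (P ++ pre x ++ y ++ [false])
      (P ++ pre x ++ y).length []) :=
    Reach.step h2 (SR.ask rfl (cg_ask_no (by
      rw [encP]; exact fun h2 => absurd ((hclk y).1 h2) (by omega))))
  have h4 : (MW P).Reach A x (m + 1 + 1 + 1) (cg 1 x x.length (P ++ pre x ++ y ++ [true])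
      (P ++ pre x ++ y).length [true]) :=
    Reach.step h3 (SR.of (i := 3) (val3 _) (by norm_num) (by norm_num) (by norm_num)
      (a := act3 1 (tp x x.length) (bt true) (bt true) .stay .stay .stay) (mem3 x y)
      (act_f3 x y))
  have h5 : (MW P).Reach A x (m + 1 + 1 + 1 + 1) (cg 2 x x.length
      (P ++ pre x ++ y ++ [true]) (P ++ pre x ++ y).length [true]) :=
    Reach.step h4 (SR.ask rfl (cg_ask_yes (by rw [encP]; exact h)))
  have h6 : (MW P).Reach A x (m + 1 + 1 + 1 + 1 + 1) (cg 4 x x.length
      (P ++ pre x ++ y ++ [true]) (P ++ pre x ++ y).length [true]) :=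
    Reach.step h5 (SR.of (i := 2) (val2 _) (by norm_num) (by norm_num) (by norm_num)
      (a := act3 4 (tp x x.length) (tp (P ++ pre x ++ y ++ [true]) (P ++ pre x ++ y).length)
        (tp [true] 0) .stay .stay .stay) (mem2' x y) (act_g x y 2 4))
  exact ⟨_, _, h6, rfl⟩

end steps

end RG

theorem exists_NTM_prefix (P : List Bool) : ∃ M : NTM, ∀ (A : Set (List Bool)) (x : List Bool)
    (B : ℕ), (∀ y, P ++ encH x y false ∈ A ↔ y.length < B) →
      (∀ m c, M.Reach A x m c → m ≤ 3 * B + 2 * x.length + P.length + 20) ∧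
      (M.Accepts A x ↔ ∃ y, y.length = B ∧ P ++ encH x y true ∈ A) := by
  refine ⟨RG.MW P, fun A x B hclk => ⟨fun m c h => (RG.reach_Fm hclk m c h).bound, ?_, ?_⟩⟩
  · rintro ⟨m, c, h1, h2⟩
    exact (RG.reach_Fm hclk m c h1).accept h2
  · rintro ⟨y, hy, h⟩
    exact RG.MW_accepts hclk hy h

end Pool.Agent.Helper37Q
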