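import Pool.Agent.Helper37Q.Upp

set_option autoImplicit false
set_option linter.unusedSectionVars false

namespace Pool.Agent.Helper37Q

open Pool.Agent.Helper76.Dim

open MeasureTheory Filter

variable [Par]

theorem exists_notMem_of_null {S : Set Om} (h : mu S = 0) : ∃ ω, ω ∉ S := by
  by_contra hc
  push Not at hc
  rw [Set.eq_univ_of_forall hc, measure_univ] at h
  exact one_ne_zero h

theorem exists_good : ∃ ω : Om,
    (∀ (M : DTM) (c b : ℕ) (d : List Bool → ℝ) (f : ℕ → List Bool → ℚ), IsGale 1 d →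
      (∀ r w, |(f r w : ℝ) - d w| ≤ 2 ^ (-(r : ℝ))) →
      (∀ r w, M.Outputs (Or ω) (inp r w) (TQ c b (r + w.length)) (ratCode (f r w))) →
      ¬ Succeeds d (XX (kap c) ω)) ∧
    (∀ (D : DTM) (c : ℕ), ¬ ∃ᶠ j in atTop,
      ω ∈ {ω | ∃ i < kl j, ¬ Ok (Rv j) (tr D c (str (2 ^ ar j - 1 + i))) ω}) ∧
    (∀ (D : DTM) (c : ℕ), ¬ ∃ᶠ j in atTop, ω ∈ Ev D c j) := by
  have h1 : mu ((⋃ q : DTM × ℕ × ℕ,
      {ω | ∃ (d : List Bool → ℝ) (f : ℕ → List Bool → ℚ), IsGale 1 d ∧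
      (∀ r w, |(f r w : ℝ) - d w| ≤ 2 ^ (-(r : ℝ))) ∧
      (∀ r w, q.1.Outputs (Or ω) (inp r w) (TQ q.2.1 q.2.2 (r + w.length)) (ratCode (f r w))) ∧
      Succeeds d (XX (kap q.2.1) ω)}) ∪ ⋃ q : DTM × ℕ, ({ω | ∃ᶠ j in atTop,
      ω ∈ {ω | ∃ i < kl j, ¬ Ok (Rv j) (tr q.1 q.2 (str (2 ^ ar j - 1 + i))) ω}} ∪
      {ω | ∃ᶠ j in atTop, ω ∈ Ev q.1 q.2 j})) = 0 := by
    rw [measure_union_null_iff, measure_iUnion_null_iff, measure_iUnion_null_iff]
    refine ⟨fun q => null_succ q.1 q.2.1 q.2.2, fun q => ?_⟩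
    rw [measure_union_null_iff]
    exact ⟨null_hits q.1 q.2, null_Ev q.1 q.2⟩
  obtain ⟨ω, hω⟩ := exists_notMem_of_null h1
  simp only [Set.mem_union, Set.mem_iUnion, not_or, not_exists] at hω
  obtain ⟨h2, h3⟩ := hω
  refine ⟨ω, fun M c b d f g1 g2 g3 g4 => h2 (M, c, b) ⟨d, f, g1, g2, g3, g4⟩,
    fun D c => (h3 (D, c)).1, fun D c => (h3 (D, c)).2⟩

/-- There is an oracle relative to which `NP` contains, for every quasipolynomial time bound, a
random language, although the class of the languages in `NP` and in `DE K` has p-dimension zero. -/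
theorem exists_oracle_par : ∃ A : Set (List Bool),
    (∀ c : ℕ, ∃ R ∈ NP A, ∀ d, IsGale 1 d → QComputable c A d → ¬ Succeeds d (chi R)) ∧
    dimP A (NP A ∩ DE Par.K A) = 0 := by
  obtain ⟨ω, h1, h2, h3⟩ := exists_good
  refine ⟨Or ω, fun c => ⟨RR (kap c) ω, RR_mem_NP _ ω, ?_⟩, le_antisymm ?_ ?_⟩
  · rintro d hd ⟨M, b, f, g1, g2⟩
    rw [chi_RR]
    exact h1 M c b d f hd g1 g2
  · refine le_of_forall_pos_lt_add fun ε hε => ?_
    obtain ⟨k, hk⟩ := exists_nat_one_div_lt hε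
    rw [zero_add]
    refine lt_of_le_of_lt (csInf_le ⟨0, fun s hs => hs.1⟩ ⟨by positivity, gale k ω,
      gale_isGale k ω, gale_computable k ω, fun L hL => ?_⟩) hk
    exact succeeds h2 h3 hL (by positivity)
  · exact Real.sInf_nonneg fun s hs => hs.1

omit [Par] in
theorem exists_oracle (K : ℕ) : ∃ A : Set (List Bool),
    (∀ c : ℕ, ∃ R ∈ NP A, ∀ d, IsGale 1 d → QComputable c A d → ¬ Succeeds d (chi R)) ∧
    dimP A (NP A ∩ DE K A) = 0 := by
  let _ : Par := ⟨K⟩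
  exact exists_oracle_par

end Pool.Agent.Helper37Q
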