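import Pool.Agent.Helper37Q.Orc
import Pool.Agent.Helper37Q.MR

set_option autoImplicit false
set_option linter.unusedSectionVars false

/-!
# The gales stored in the table, and the hidden languages
-/

namespace Pool.Agent.Helper37Q

open Pool.Agent.Helper76.Dim
open Pool.Agent.Helper79K.DM (mach mach_surj tb apx Bit Agree eval_mono win_append_in
  win_append_short win_append_long isPrefix_split not_both apx_le length_out)

open MeasureTheory

variable [Par]

theorem length_por_le (j : ℕ) (w : List Bool) : (por j w).length ≤ kl j := by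
  simp [por]

theorem pr_nonneg (F : Fam) (j : ℕ) (ω : Om) (u : List Bool) : 0 ≤ pr F j ω u :=
  measureReal_nonneg

theorem aa_nonneg (F : Fam) (j : ℕ) (ω : Om) (w : List Bool) : 0 ≤ aa F j ω w :=
  mul_nonneg (by positivity) (pr_nonneg _ _ _ _)

theorem pr_split (j : ℕ) (ω : Om) {u : List Bool} (h : u.length < kl j) :
    pr Or j ω (u ++ [false]) + pr Or j ω (u ++ [true]) = pr Or j ω u := by
  rw [pr, pr, pr, ← measureReal_union]
  · congr 1
    ext ω'
    simp only [Set.mem_union, Set.mem_ofPred_eq]
    exact (isPrefix_split (by rw [length_key]; exact h)).symm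
  · rw [Set.disjoint_left]
    exact fun ω' h1 h2 => not_both h1 h2
  · exact measurable_key j ω fun l => u ++ [true] <+: l

theorem aa_mart (j : ℕ) (ω : Om) (w : List Bool) :
    aa Or j ω (w ++ [false]) + aa Or j ω (w ++ [true]) = 2 * aa Or j ω w := by
  rcases lt_or_ge w.length (2 ^ ar j - 1) with h1 | h1
  · rw [aa, aa, aa, por, por, por, win_append_short _ h1, win_append_short _ h1]
    ring
  · rcases lt_or_ge w.length (2 ^ ar j - 1 + kl j) with h2 | h2
    · have h3 : (por j w).length < kl j := by
        simp only [por, List.length_take, List.length_drop]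
        omega
      rw [aa, aa, aa, por, por, win_append_in _ h1 h2, win_append_in _ h1 h2, ← por,
        List.length_append, List.length_append, List.length_singleton, List.length_singleton,
        ← pr_split j ω h3]
      ring
    · rw [aa, aa, aa, por, por, por, win_append_long _ h2, win_append_long _ h2]
      ring

theorem lt_two_pow_ar (j : ℕ) : j < 2 ^ ar j := (lt_ar j).trans Nat.lt_two_pow_self

/-- the martingale for the sample point `ω` -/
noncomputable def mm (ω : Om) (w : List Bool) : ℝ := MM Or ω w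

theorem mm_mart (ω : Om) (w : List Bool) :
    mm ω (w ++ [false]) + mm ω (w ++ [true]) = 2 * mm ω w := by
  have h2 : mm ω (w ++ [false]) + mm ω (w ++ [true]) =
      ∑ j ∈ Finset.range (w.length + 2), (1 / 2) ^ (j + 1) * (2 * aa Or j ω w) +
      2 * (1 / 2) ^ (w.length + 2) := by
    simp only [mm, MM, List.length_append, List.length_singleton]
    have : ∀ j, (1 / 2 : ℝ) ^ (j + 1) * (2 * aa Or j ω w) =
        (1 / 2) ^ (j + 1) * aa Or j ω (w ++ [false]) +
        (1 / 2) ^ (j + 1) * aa Or j ω (w ++ [true]) := by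
      intro j
      rw [← aa_mart j ω w]
      ring
    simp only [this]
    rw [Finset.sum_add_distrib]
    ring
  have h3 : aa Or (w.length + 1) ω w = 1 :=
    aa_short Or ω ((Nat.lt_succ_self _).trans (lt_two_pow_ar _))
  rw [h2, mm, MM, Finset.sum_range_succ, h3]
  have h4 : ∑ j ∈ Finset.range (w.length + 1), (1 / 2 : ℝ) ^ (j + 1) * (2 * aa Or j ω w) =
      2 * ∑ j ∈ Finset.range (w.length + 1), (1 / 2 : ℝ) ^ (j + 1) * aa Or j ω w := by
    rw [Finset.mul_sum]
    exact Finset.sum_congr rfl fun t _ => by ring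
  rw [h4]
  ring

theorem mm_nil (ω : Om) : mm ω [] = 1 := by
  simp only [mm, MM, List.length_nil, zero_add, Finset.sum_range_one]
  rw [aa_short Or ω (by
    have : 2 ≤ 2 ^ ar 0 := by
      calc 2 = 2 ^ 1 := rfl
        _ ≤ 2 ^ ar 0 := Nat.pow_le_pow_right (by norm_num) (lt_ar 0)
    simp only [List.length_nil]
    omega)]
  norm_num

theorem MM_nonneg (F : Fam) (ω : Om) (w : List Bool) : 0 ≤ MM F ω w := by
  refine add_nonneg (Finset.sum_nonneg fun t _ => ?_) (by positivity)
  have h1 := aa_nonneg F t ω w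
  positivity

theorem mm_le (ω : Om) (w : List Bool) : mm ω w ≤ 2 ^ w.length := by
  induction w using List.reverseRecOn with
  | nil => rw [mm_nil]; simp
  | append_singleton w b ih =>
    have h1 := mm_mart ω w
    have h2 : 0 ≤ mm ω (w ++ [false]) := MM_nonneg _ _ _
    have h3 : 0 ≤ mm ω (w ++ [true]) := MM_nonneg _ _ _
    rw [List.length_append, List.length_singleton, pow_succ]
    cases b <;> linarith

/-- the gale of index `1 / (k + 1)` -/
noncomputable def gale (k : ℕ) (ω : Om) (w : List Bool) : ℝ := gv k w (mm ω w)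

theorem gale_isGale (k : ℕ) (ω : Om) : IsGale ((1 : ℝ) / (k + 1)) (gale k ω) := by
  refine ⟨fun w => mul_nonneg (by positivity) (MM_nonneg _ _ _), fun w => ?_⟩
  have h1 : ∀ b, gale k ω (w ++ [b]) = 2 ^ (((1 : ℝ) / (k + 1) - 1) * w.length) *
      2 ^ ((1 : ℝ) / (k + 1) - 1) * mm ω (w ++ [b]) := by
    intro b
    rw [gale, gv, ← Real.rpow_add (by norm_num), List.length_append, List.length_singleton]
    congr 2
    push_cast
    ring
  rw [h1, h1, ← mul_add, mm_mart, gale, gv]
  have h2 : (2 : ℝ) ^ (-((1 : ℝ) / (k + 1))) * 2 ^ ((1 : ℝ) / (k + 1) - 1) * 2 = 1 := by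
    rw [← Real.rpow_add (by norm_num)]
    have : -((1 : ℝ) / (k + 1)) + (1 / (k + 1) - 1) = -1 := by ring
    rw [this, Real.rpow_neg (by norm_num), Real.rpow_one]
    norm_num
  calc 2 ^ (((1 : ℝ) / (k + 1) - 1) * w.length) * mm ω w =
      (2 ^ (((1 : ℝ) / (k + 1) - 1) * w.length) * mm ω w) *
        ((2 : ℝ) ^ (-((1 : ℝ) / (k + 1))) * 2 ^ ((1 : ℝ) / (k + 1) - 1) * 2) := by
        rw [h2, mul_one]
    _ = _ := by ring

theorem gale_le (k : ℕ) (ω : Om) (w : List Bool) : gale k ω w ≤ 2 ^ w.length := by
  have h1 : (2 : ℝ) ^ (((1 : ℝ) / (k + 1) - 1) * w.length) ≤ 1 := by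
    refine Real.rpow_le_one_of_one_le_of_nonpos (by norm_num) ?_
    refine mul_nonpos_of_nonpos_of_nonneg ?_ (Nat.cast_nonneg _)
    have h2 : (1 : ℝ) / (k + 1) ≤ 1 := by
      rw [div_le_one (by positivity)]
      have : (0 : ℝ) ≤ k := Nat.cast_nonneg k
      linarith
    linarith
  have h2 := mm_le ω w
  have h3 : 0 ≤ mm ω w := MM_nonneg _ _ _
  rw [gale, gv]
  exact (mul_le_of_le_one_left h3 h1).trans h2

theorem gale_zero (ω : Om) (w : List Bool) : gale 0 ω w = mm ω w := by
  rw [gale, gv]
  simp

/-- The gales are computable in polynomial time relative to the oracle. -/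
theorem gale_computable (k : ℕ) (ω : Om) : PComputable (Or ω) (gale k ω) := by
  obtain ⟨M, hM⟩ := exists_DTM_prefix (pf k)
  refine ⟨M, 20 * Polynomial.X + Polynomial.C (k + 100), fun r w => apx r (gale k ω w),
    fun r w => apx_le r _, ?_⟩
  intro r w
  refine hM (Or ω) _ _ _ (fun j => ?_) ?_
  · have h1 := spl_pf k (encT (inp r w) j)
    have h2 : kind (spl (pf k ++ encT (inp r w) j)).2 = .tab r w j := by
      rw [h1]
      exact kind_tab r w j
    rw [mem_Or, mem_FF_tab h2, h1]
    rfl
  · have h1 := length_out (r := r) ((gale_isGale k ω).1 w) (gale_le k ω w)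
    simp only [Polynomial.eval_add, Polynomial.eval_mul, Polynomial.eval_X,
      Polynomial.eval_ofNat, Polynomial.eval_C]
    have h2 : (inp r w).length = r + 1 + w.length := by
      simp [inp]
      omega
    rw [h2, length_pf]
    omega

/-! ### The hidden languages -/

/-- the hidden language number `k` -/
def RR (k : ℕ) (ω : Om) : Set (List Bool) := {x | Rb ω k x = true}

/-- the characteristic sequence of the hidden language number `k` -/
def XX (k : ℕ) (ω : Om) : ℕ → Bool := fun i => ω (k, i, 0)

theorem chi_RR (k : ℕ) (ω : Om) : chi (RR k ω) = XX k ω := by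
  funext m
  simp only [chi, RR, XX, Set.mem_ofPred_eq, Rb, idx_str]
  cases ω (k, m, 0) <;> simp

theorem length_wit (ω : Om) (k : ℕ) (x : List Bool) : (wit ω k x).length = x.length ^ k := by
  simp [wit]

/-- The hidden languages are in `NP` relative to the oracle. -/
theorem RR_mem_NP (k : ℕ) (ω : Om) : RR k ω ∈ NP (Or ω) := by
  obtain ⟨M, hM⟩ := exists_NTM_prefix (pf k)
  have hclk : ∀ x y : List Bool, pf k ++ encH x y false ∈ Or ω ↔ y.length < x.length ^ k := by
    intro x y
    have h1 := spl_pf k (encH x y false)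
    have h2 : kind (spl (pf k ++ encH x y false)).2 = .clk x y := by
      rw [h1]
      exact kind_clk x y
    rw [mem_Or, mem_FF_clk h2, h1]
  have hhid : ∀ x y : List Bool, pf k ++ encH x y true ∈ Or ω ↔ Hid ω k x y := by
    intro x y
    have h1 := spl_pf k (encH x y true)
    have h2 : kind (spl (pf k ++ encH x y true)).2 = .hid x y := by
      rw [h1]
      exact kind_hid x y
    rw [mem_Or, mem_FF_hid h2, h1]
  refine ⟨M, 3 * Polynomial.X ^ k + 2 * Polynomial.X + Polynomial.C (k + 21),
    fun x m c h => ?_, fun x => ?_⟩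
  · have h1 := (hM (Or ω) x (x.length ^ k) (hclk x)).1 m c h
    rw [length_pf] at h1
    simp only [Polynomial.eval_add, Polynomial.eval_mul, Polynomial.eval_X, Polynomial.eval_pow,
      Polynomial.eval_ofNat, Polynomial.eval_C]
    omega
  · rw [(hM (Or ω) x (x.length ^ k) (hclk x)).2]
    constructor
    · intro hx
      exact ⟨wit ω k x, length_wit ω k x, (hhid x _).2 ⟨hx, rfl⟩⟩
    · rintro ⟨y, _, hy⟩
      exact ((hhid x y).1 hy).1

end Pool.Agent.Helper37Q
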