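import Pool.Agent.Helper79K.DM.Main

set_option autoImplicit false

/-!
# Independent coins and resampling

The coins are indexed by triples `(k, i, b)`: the coin `(k, i, 0)` decides whether the string number
`i` is in the hidden language number `k`, the coins `(k, i, b + 1)` form the witness for it.
-/

namespace Pool.Agent.Helper37Q

open Pool.Agent.Helper79K.DM (coin coin_singleton)

open MeasureTheory Filter

/-- the indices of the coins -/
abbrev Co : Type := ℕ × ℕ × ℕ

/-- the probability space -/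
abbrev Om : Type := Co → Bool

/-- independent fair coins -/
noncomputable def mu : Measure Om := Measure.infinitePi fun _ => coin

instance : IsProbabilityMeasure mu := by
  unfold mu
  infer_instance

theorem mu_cyl (C : Finset Co) (g : Co → Bool) :
    mu.real {ω | ∀ c ∈ C, ω c = g c} = (1 / 2) ^ C.card := by
  have h : {ω : Om | ∀ c ∈ C, ω c = g c} = Set.pi (C : Set Co) fun c => {g c} := by
    ext ω
    simp [Set.mem_pi]
  rw [h, mu, Measure.real, Measure.infinitePi_pi _ (fun _ _ => MeasurableSet.of_discrete)]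
  simp [coin_singleton]

/-- the event depends only on the coordinates in `C` -/
def Dep (C : Finset Co) (S : Set Om) : Prop :=
  ∀ ω ω' : Om, (∀ c ∈ C, ω c = ω' c) → (ω ∈ S ↔ ω' ∈ S)

theorem Dep.measurable {C : Finset Co} {S : Set Om} (h : Dep C S) : MeasurableSet S := by
  have h1 : S = (C.restrict : Om → _) ⁻¹' ((C.restrict : Om → _) '' S) := by
    ext ω
    constructor
    · exact fun hω => ⟨ω, hω, rfl⟩
    · rintro ⟨ω', h2, h3⟩
      refine (h ω' ω fun c hc => ?_).1 h2
      have := congrFun h3 ⟨c, hc⟩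
      exact this
  rw [h1]
  exact (Finset.measurable_restrict C) (Set.toFinite _).measurableSet

open Classical in
/-- the sample point which agrees with `ω` on the coordinates in `P` and with `ω'` on the others -/
noncomputable def mixP (P : Co → Prop) (ω ω' : Om) : Om := fun c => if P c then ω c else ω' c

theorem mixP_pos {P : Co → Prop} {ω ω' : Om} {c : Co} (h : P c) : mixP P ω ω' c = ω c := if_pos h

theorem mixP_neg {P : Co → Prop} {ω ω' : Om} {c : Co} (h : ¬ P c) : mixP P ω ω' c = ω' c :=
  if_neg h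

theorem measurable_mixP (P : Co → Prop) : Measurable fun q : Om × Om => mixP P q.1 q.2 := by
  refine measurable_pi_iff.2 fun c => ?_
  by_cases h : P c
  · simp only [mixP, if_pos h]
    exact (measurable_pi_apply c).comp measurable_fst
  · simp only [mixP, if_neg h]
    exact (measurable_pi_apply c).comp measurable_snd

theorem map_mixP (P : Co → Prop) : (mu.prod mu).map (fun q => mixP P q.1 q.2) = mu := by
  classical
  unfold mu
  refine Measure.eq_infinitePi _ fun s t ht => ?_
  rw [Measure.map_apply (measurable_mixP P) (MeasurableSet.pi s.countable_toSet fun i _ => ht i)]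
  have h1 : (fun q : Om × Om => mixP P q.1 q.2) ⁻¹' (Set.pi (s : Set Co) t) =
      (Set.pi ((s.filter P : Finset Co) : Set Co) t) ×ˢ
        (Set.pi ((s.filter fun c => ¬ P c : Finset Co) : Set Co) t) := by
    ext ⟨a, b⟩
    simp only [Set.mem_preimage, Set.mem_pi, Set.mem_prod, Finset.coe_filter, Set.mem_ofPred_eq,
      Finset.mem_coe, mixP]
    constructor
    · intro h
      refine ⟨fun c hc => ?_, fun c hc => ?_⟩
      · have := h c hc.1
        rwa [if_pos hc.2] at this
      · have := h c hc.1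
        rwa [if_neg hc.2] at this
    · rintro ⟨h2, h3⟩ c hc
      by_cases h4 : P c
      · rw [if_pos h4]
        exact h2 c ⟨hc, h4⟩
      · rw [if_neg h4]
        exact h3 c ⟨hc, h4⟩
  rw [h1, Measure.prod_prod, Measure.infinitePi_pi _ (fun i _ => ht i),
    Measure.infinitePi_pi _ (fun i _ => ht i), Finset.prod_filter_mul_prod_filter_not]

/-- If all conditional probabilities are at most `c`, then so is the probability. -/
theorem mu_le_of_mixP (P : Co → Prop) {E : Set Om} (hE : MeasurableSet E)
    {c : ℝ} (hc : 0 ≤ c) (h : ∀ ω, mu.real {ω' | mixP P ω ω' ∈ E} ≤ c) : mu.real E ≤ c := by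
  have h1 : mu E ≤ ENNReal.ofReal c := by
    rw [← map_mixP P, Measure.map_apply (measurable_mixP P) hE,
      Measure.prod_apply (measurable_mixP P hE)]
    have h2 : ∀ ω, mu (Prod.mk ω ⁻¹' ((fun q : Om × Om => mixP P q.1 q.2) ⁻¹' E)) ≤
        ENNReal.ofReal c := by
      intro ω
      rw [← ofReal_measureReal (measure_ne_top _ _)]
      exact ENNReal.ofReal_le_ofReal (h ω)
    refine (lintegral_mono h2).trans ?_
    rw [lintegral_const, measure_univ, mul_one]
  rw [Measure.real]
  exact ENNReal.toReal_le_of_le_ofReal hc h1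

/-- the sample point which agrees with `ω` on the coins belonging to the strings in `Q` and with
`ω'` on the others -/
noncomputable def mix (Q : ℕ → ℕ → Prop) (ω ω' : Om) : Om := mixP (fun c => Q c.1 c.2.1) ω ω'

theorem mix_pos {Q : ℕ → ℕ → Prop} {ω ω' : Om} {c : Co} (h : Q c.1 c.2.1) :
    mix Q ω ω' c = ω c := mixP_pos h

theorem mix_neg {Q : ℕ → ℕ → Prop} {ω ω' : Om} {c : Co} (h : ¬ Q c.1 c.2.1) :
    mix Q ω ω' c = ω' c := mixP_neg h

/-- agreement on the coins belonging to the strings in `Q` -/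
def Ag (Q : ℕ → ℕ → Prop) (ω ω' : Om) : Prop := ∀ c : Co, Q c.1 c.2.1 → ω c = ω' c

theorem Ag.mix (Q : ℕ → ℕ → Prop) (ω ω' : Om) : Ag Q (mix Q ω ω') ω := fun _ hc => mix_pos hc

theorem Ag.mono {Q Q' : ℕ → ℕ → Prop} {ω ω' : Om} (h : Ag Q ω ω') (hQ : ∀ k i, Q' k i → Q k i) :
    Ag Q' ω ω' := fun c hc => h c (hQ _ _ hc)

theorem mix_congr {Q : ℕ → ℕ → Prop} {ω ω' η : Om} (h : Ag Q ω ω') : mix Q ω η = mix Q ω' η := by
  funext c
  by_cases hc : Q c.1 c.2.1
  · rw [mix_pos hc, mix_pos hc, h c hc]
  · rw [mix_neg hc, mix_neg hc]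

theorem mu_le_of_mix (Q : ℕ → ℕ → Prop) {E : Set Om} (hE : MeasurableSet E)
    {c : ℝ} (hc : 0 ≤ c) (h : ∀ ω, mu.real {ω' | mix Q ω ω' ∈ E} ≤ c) : mu.real E ≤ c :=
  mu_le_of_mixP (fun c => Q c.1 c.2.1) hE hc h

/-- Borel and Cantelli -/
theorem borel {E : ℕ → Set Om} {b : ℕ → ℝ} (hb : Summable b)
    (h : ∀ᶠ n in atTop, mu.real (E n) ≤ b n) : mu {ω | ∃ᶠ n in atTop, ω ∈ E n} = 0 := by
  have h1 : Summable fun n => mu.real (E n) := by
    refine hb.of_norm_bounded_eventually_nat ?_
    filter_upwards [h] with n hn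
    rwa [Real.norm_of_nonneg measureReal_nonneg]
  have h2 : ∑' n, mu (E n) ≠ ⊤ := by
    have h3 := h1.tsum_ofReal_ne_top
    have h4 : ∀ n, ENNReal.ofReal (mu.real (E n)) = mu (E n) :=
      fun n => ofReal_measureReal (measure_ne_top _ _)
    simpa only [h4] using h3
  have h3 := measure_limsup_atTop_eq_zero h2
  rw [Filter.limsup_eq_iInf_iSup_of_nat] at h3
  convert h3 using 2
  ext ω
  simp only [Set.mem_ofPred_eq, frequently_atTop]
  simp [Set.mem_iInter, Set.mem_iUnion]

end Pool.Agent.Helper37Q
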