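import Pool.Agent.Helper37Q.Mix

set_option autoImplicit false
set_option linter.unusedSectionVars false

/-!
# The oracles

The oracle has a hidden part, which codes random languages number `0, 1, 2, …` together with random
witnesses (for a string of length `n` in the language number `k` the witness has length `n ^ k`),
and a table, which stores the values of gales. They come from a martingale, which is the sum, over
scales `j`, of the martingales of the conditional distributions of the language of a
nondeterministic machine on the strings of length between `ar j` and `2 * ar j`, given the coins for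
the strings with witnesses of length less than `ar j ^ (K + 2)`.
-/

namespace Pool.Agent.Helper37Q

open Pool.Agent.Helper76.Dim
open Pool.Agent.Helper79K.DM (mach mach_surj tb apx Bit Agree eval_mono)

open MeasureTheory

/-! ### Queries with a prefix -/

/-- the number of leading `true`s, and the rest after the first `false` -/
def spl : List Bool → ℕ × List Bool
  | [] => (0, [])
  | false :: z => (0, z)
  | true :: z => ((spl z).1 + 1, (spl z).2)

/-- the prefix number `k` -/
def pf (k : ℕ) : List Bool := List.replicate k true ++ [false]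

theorem length_pf (k : ℕ) : (pf k).length = k + 1 := by simp [pf]

theorem spl_pf (k : ℕ) (z : List Bool) : spl (pf k ++ z) = (k, z) := by
  induction k with
  | zero => rfl
  | succ k ih =>
    have h : pf (k + 1) ++ z = true :: (pf k ++ z) := by simp [pf, List.replicate_succ]
    rw [h, spl, ih]

theorem spl_len (z : List Bool) : (spl z).1 + (spl z).2.length ≤ z.length := by
  induction z with
  | nil => simp [spl]
  | cons b z ih =>
    cases b
    · simp [spl]
    · simp only [spl, List.length_cons]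
      omega

/-! ### The scales -/

/-- The parameter of the construction. -/
class Par : Type where
  /-- the exponent `K` in the time bound `2 ^ (c n ^ K)` -/
  K : ℕ

variable [Par]

/-- the first length of scale `j` -/
def ar (j : ℕ) : ℕ := 2 ^ (Par.K + 2) ^ j

/-- the last length of scale `j` -/
def ti (j : ℕ) : ℕ := 2 * ar j

/-- the strings (given by the number of the language and their own number) which are revealed at
scale `j` -/
def Rv (j : ℕ) (k i : ℕ) : Prop := (str i).length ^ k < ar j ^ (Par.K + 2)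

theorem ar_mono {i j : ℕ} (h : i ≤ j) : ar i ≤ ar j :=
  Nat.pow_le_pow_right (by norm_num) (Nat.pow_le_pow_right (by omega) h)

theorem Rv_mono {i j : ℕ} (h : i ≤ j) (k n : ℕ) (hR : Rv i k n) : Rv j k n :=
  lt_of_lt_of_le hR (Nat.pow_le_pow_left (ar_mono h) _)

theorem ar_succ (j : ℕ) : ar (j + 1) = ar j ^ (Par.K + 2) := by
  rw [ar, ar, ← pow_mul, pow_succ]

theorem lt_ar (j : ℕ) : j < ar j :=
  (Nat.lt_pow_self (by omega : 1 < Par.K + 2)).trans Nat.lt_two_pow_self

/-- The language treated at scale `j`, relative to `A`. -/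
def LL (j : ℕ) (A : Set (List Bool)) : Set (List Bool) :=
  {x | tb j (ti j) ≤ 2 ^ ar j ∧ (mach j.unpair.1).1.AccIn A (tb j x.length) x}

/-- the number of strings of scale `j` -/
def kl (j : ℕ) : ℕ := 2 ^ (ti j + 1) - 2 ^ ar j

theorem kl_add (j : ℕ) : 2 ^ ar j - 1 + kl j = 2 ^ (ti j + 1) - 1 := by
  have h1 : 2 ^ ar j ≤ 2 ^ (ti j + 1) := Nat.pow_le_pow_right (by norm_num) (by rw [ti]; omega)
  have h2 : 1 ≤ 2 ^ ar j := Nat.one_le_two_pow
  rw [kl]
  omega

open Classical in
/-- the key of scale `j`: the characteristic sequence of the language on the strings of scale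
`j` -/
noncomputable def key (A : Set (List Bool)) (j : ℕ) : List Bool :=
  (List.range (kl j)).map fun i => decide (str (2 ^ ar j - 1 + i) ∈ LL j A)

/-- the part of `w` corresponding to the strings of scale `j` -/
def por (j : ℕ) (w : List Bool) : List Bool := (w.drop (2 ^ ar j - 1)).take (kl j)

/-- families of oracles -/
abbrev Fam : Type := Om → Set (List Bool)

/-- the conditional probability that the key of scale `j` starts with `u` -/
noncomputable def pr (F : Fam) (j : ℕ) (ω : Om) (u : List Bool) : ℝ :=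
  mu.real {ω' | u <+: key (F (mix (Rv j) ω ω')) j}

/-- the martingale of the conditional distribution of the key -/
noncomputable def aa (F : Fam) (j : ℕ) (ω : Om) (w : List Bool) : ℝ :=
  2 ^ (por j w).length * pr F j ω (por j w)

/-- the total martingale -/
noncomputable def MM (F : Fam) (ω : Om) (w : List Bool) : ℝ :=
  ∑ j ∈ Finset.range (w.length + 1), (1 / 2) ^ (j + 1) * aa F j ω w + (1 / 2) ^ (w.length + 1)

/-- the value of the gale of index `1 / (k + 1)`, if the martingale has the value `v` -/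
noncomputable def gv (k : ℕ) (w : List Bool) (v : ℝ) : ℝ :=
  2 ^ (((1 : ℝ) / (k + 1) - 1) * w.length) * v

/-- the word which is stored for the input `r`, `w` and the gale number `k` -/
noncomputable def out (F : Fam) (ω : Om) (k r : ℕ) (w : List Bool) : List Bool :=
  ratCode (apx r (gv k w (MM F ω w)))

/-- membership in the hidden language number `k` -/
def Rb (ω : Om) (k : ℕ) (x : List Bool) : Bool := ω (k, idx x, 0)

/-- the witness for `x` -/
def wit (ω : Om) (k : ℕ) (x : List Bool) : List Bool :=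
  (List.range (x.length ^ k)).map fun b => ω (k, idx x, b + 1)

/-- the hidden part of the oracle -/
def Hid (ω : Om) (k : ℕ) (x y : List Bool) : Prop := Rb ω k x = true ∧ y = wit ω k x

/-- One step of the recursion. -/
def FF (F : Fam) : Fam := fun ω =>
  {z | match kind (spl z).2 with
    | .tab r w j => Bit (out F ω (spl z).1 r w) j
    | .clk x y => y.length < x.length ^ (spl z).1
    | .hid x y => Hid ω (spl z).1 x y
    | .other => False}

/-- the approximations -/
noncomputable def Aux : ℕ → Fam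
  | 0 => fun _ => ∅
  | m + 1 => FF (Aux m)

/-- The oracles. -/
noncomputable def Or : Fam := fun ω => {z | z ∈ Aux (z.length + 1) ω}

/-! ### Locality -/

theorem tb_mono {j a b : ℕ} (h : a ≤ b) : tb j a ≤ tb j b := eval_mono _ h

theorem mem_LL_congr {j : ℕ} {A B : Set (List Bool)} (h : Agree (2 ^ ar j) A B) {x : List Bool}
    (hx : x.length ≤ ti j) : x ∈ LL j A ↔ x ∈ LL j B := by
  simp only [LL, Set.mem_ofPred_eq]
  refine and_congr_right fun h1 => ?_
  exact (mach j.unpair.1).1.accIn_congr x fun z hz =>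
    h z (hz.trans_le ((tb_mono hx).trans h1))

theorem length_key (A : Set (List Bool)) (j : ℕ) : (key A j).length = kl j := by simp [key]

theorem idx_key {j i : ℕ} (hi : i < kl j) :
    ar j ≤ (str (2 ^ ar j - 1 + i)).length ∧ (str (2 ^ ar j - 1 + i)).length ≤ ti j := by
  have h1 := kl_add j
  have h2 : 1 ≤ 2 ^ ar j := Nat.one_le_two_pow
  have h3 : 1 ≤ 2 ^ (ti j + 1) := Nat.one_le_two_pow
  have h4 := length_str_le (2 ^ ar j - 1 + i)
  constructor
  · by_contra hc
    have h5 : 2 ^ ((str (2 ^ ar j - 1 + i)).length + 1) ≤ 2 ^ ar j :=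
      Nat.pow_le_pow_right (by norm_num) (by omega)
    omega
  · by_contra hc
    have h5 : 2 ^ (ti j + 1) ≤ 2 ^ (str (2 ^ ar j - 1 + i)).length :=
      Nat.pow_le_pow_right (by norm_num) (by omega)
    omega

theorem key_congr {j : ℕ} {A B : Set (List Bool)} (h : Agree (2 ^ ar j) A B) :
    key A j = key B j := by
  refine List.map_congr_left fun i hi => ?_
  rw [List.mem_range] at hi
  exact decide_eq_decide.2 (mem_LL_congr h (idx_key hi).2)

theorem por_short {j : ℕ} {w : List Bool} (h : w.length < 2 ^ ar j) : por j w = [] := by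
  rw [por, List.drop_of_length_le (by omega), List.take_nil]

theorem pr_nil (F : Fam) (j : ℕ) (ω : Om) : pr F j ω [] = 1 := by
  simp [pr]

theorem aa_short (F : Fam) {j : ℕ} (ω : Om) {w : List Bool} (h : w.length < 2 ^ ar j) :
    aa F j ω w = 1 := by
  rw [aa, por_short h, pr_nil]
  simp

/-- agreement of families -/
def AgreeF (l : ℕ) (F G : Fam) : Prop := ∀ ω, Agree l (F ω) (G ω)

theorem AgreeF.mono {l l' : ℕ} {F G : Fam} (h : AgreeF l F G) (hl : l' ≤ l) : AgreeF l' F G :=
  fun ω => (h ω).mono hl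

theorem pr_congr {j : ℕ} {F G : Fam} (h : AgreeF (2 ^ ar j) F G) (ω : Om) (u : List Bool) :
    pr F j ω u = pr G j ω u := by
  rw [pr, pr]
  congr 1
  ext ω'
  rw [Set.mem_ofPred_eq, Set.mem_ofPred_eq, key_congr (h _)]

theorem aa_congr {l : ℕ} {F G : Fam} (h : AgreeF l F G) {w : List Bool} (hw : w.length ≤ l)
    (j : ℕ) (ω : Om) : aa F j ω w = aa G j ω w := by
  by_cases ht : w.length < 2 ^ ar j
  · rw [aa_short F ω ht, aa_short G ω ht]
  · rw [aa, aa, pr_congr (h.mono (by omega))]

theorem MM_congr {l : ℕ} {F G : Fam} (h : AgreeF l F G) {w : List Bool} (hw : w.length ≤ l)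
    (ω : Om) : MM F ω w = MM G ω w := by
  rw [MM, MM]
  congr 1
  exact Finset.sum_congr rfl fun t _ => by rw [aa_congr h hw]

theorem out_congr {l : ℕ} {F G : Fam} (h : AgreeF l F G) {w : List Bool} (hw : w.length ≤ l)
    (ω : Om) (k r : ℕ) : out F ω k r w = out G ω k r w := by
  rw [out, out, MM_congr h hw]

theorem mem_FF_tab {F : Fam} {ω : Om} {z : List Bool} {r : ℕ} {w : List Bool} {j : ℕ}
    (hk : kind (spl z).2 = .tab r w j) : z ∈ FF F ω ↔ Bit (out F ω (spl z).1 r w) j := by
  simp only [FF, Set.mem_ofPred_eq, hk]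

theorem mem_FF_clk {F : Fam} {ω : Om} {z x y : List Bool}
    (hk : kind (spl z).2 = .clk x y) : z ∈ FF F ω ↔ y.length < x.length ^ (spl z).1 := by
  simp only [FF, Set.mem_ofPred_eq, hk]

theorem mem_FF_hid {F : Fam} {ω : Om} {z x y : List Bool}
    (hk : kind (spl z).2 = .hid x y) : z ∈ FF F ω ↔ Hid ω (spl z).1 x y := by
  simp only [FF, Set.mem_ofPred_eq, hk]

theorem mem_FF_other {F : Fam} {ω : Om} {z : List Bool}
    (hk : kind (spl z).2 = .other) : z ∉ FF F ω := by
  simp only [FF, Set.mem_ofPred_eq, hk, not_false_eq_true]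

theorem tab_len {z : List Bool} {r : ℕ} {w : List Bool} {j : ℕ}
    (hk : kind (spl z).2 = .tab r w j) : w.length < z.length := by
  have h1 := length_lt_of_tab hk
  have h2 := spl_len z
  omega

theorem hid_len {z x y : List Bool} (hk : kind (spl z).2 = .hid x y) :
    (spl z).1 + x.length < z.length := by
  have h1 := length_lt_of_hid hk
  have h2 := spl_len z
  omega

theorem FF_agree {l : ℕ} {F G : Fam} (h : AgreeF l F G) : AgreeF (l + 1) (FF F) (FF G) := by
  intro ω z hz
  cases hk : kind (spl z).2 with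
  | tab r w j =>
    have h1 := tab_len hk
    have h2 : w.length ≤ l := by omega
    rw [mem_FF_tab hk, mem_FF_tab hk, out_congr h h2]
  | clk x y => rw [mem_FF_clk hk, mem_FF_clk hk]
  | hid x y => rw [mem_FF_hid hk, mem_FF_hid hk]
  | other => exact iff_of_false (mem_FF_other hk) (mem_FF_other hk)

theorem Aux_agree (m : ℕ) : AgreeF m (Aux m) (Aux (m + 1)) := by
  induction m with
  | zero => exact fun ω z hz => absurd hz (Nat.not_lt_zero _)
  | succ m ih => exact FF_agree ih

theorem Aux_agree' (m j : ℕ) : AgreeF m (Aux m) (Aux (m + j)) := by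
  induction j with
  | zero => exact fun ω z _ => Iff.rfl
  | succ j ih =>
    intro ω z hz
    exact (ih ω z hz).trans (Aux_agree (m + j) ω z (hz.trans_le (Nat.le_add_right _ _)))

theorem mem_Or_def {ω : Om} {z : List Bool} : z ∈ Or ω ↔ z ∈ Aux (z.length + 1) ω := by
  rw [Or, Set.mem_ofPred_eq]

theorem Or_agree (m : ℕ) : AgreeF m Or (Aux m) := by
  intro ω z hz
  obtain ⟨j, hj⟩ : ∃ j, m = z.length + 1 + j := ⟨m - (z.length + 1), by omega⟩
  have h1 := Aux_agree' (z.length + 1) j ω z (Nat.lt_succ_self _)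
  rw [hj, mem_Or_def]
  exact h1

/-- The fixed point equation. -/
theorem Or_eq : Or = FF Or := by
  funext ω
  ext z
  have h1 := Or_agree (z.length + 1) ω z (Nat.lt_succ_self _)
  have h2 := FF_agree (Or_agree z.length) ω z (Nat.lt_succ_self _)
  rw [h1, h2, Aux]

theorem mem_Or {ω : Om} {z : List Bool} : z ∈ Or ω ↔ z ∈ FF Or ω := by
  conv_lhs => rw [Or_eq]

/-! ### Dependence on finitely many coordinates -/

/-- the coordinates relevant for strings of length less than `l` -/
def CC (l : ℕ) : Finset Co := Finset.range l ×ˢ Finset.range (2 ^ l) ×ˢ Finset.range (l ^ l + 1)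

theorem pow_self_mono {l l' : ℕ} (h : l ≤ l') : l ^ l ≤ l' ^ l' := by
  rcases Nat.eq_zero_or_pos l' with h0 | h0
  · have : l = 0 := by omega
    rw [h0, this]
  · exact (Nat.pow_le_pow_left h l).trans (Nat.pow_le_pow_right h0 h)

theorem CC_mono {l l' : ℕ} (h : l ≤ l') : CC l ⊆ CC l' := by
  refine Finset.product_subset_product (Finset.range_mono h)
    (Finset.product_subset_product ?_ ?_)
  · exact Finset.range_mono (Nat.pow_le_pow_right (by norm_num) h)
  · exact Finset.range_mono (Nat.succ_le_succ (pow_self_mono h))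

theorem mem_CC {l k b : ℕ} {x : List Bool} (hk : k < l) (hx : x.length < l)
    (hb : b ≤ x.length ^ k) : (k, idx x, b) ∈ CC l := by
  simp only [CC, Finset.mem_product, Finset.mem_range]
  have h1 := idx_lt x
  have h2 : 2 ^ (x.length + 1) ≤ 2 ^ l := Nat.pow_le_pow_right (by norm_num) hx
  have h3 : x.length ^ k ≤ l ^ l :=
    (Nat.pow_le_pow_left hx.le k).trans (Nat.pow_le_pow_right (by omega) hk.le)
  exact ⟨hk, by omega, by omega⟩

theorem Rb_dep {l k : ℕ} {x : List Bool} (hk : k < l) (hx : x.length < l) {ω ω' : Om}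
    (h : ∀ c ∈ CC l, ω c = ω' c) : Rb ω k x = Rb ω' k x :=
  h _ (mem_CC hk hx (Nat.zero_le _))

theorem wit_dep {l k : ℕ} {x : List Bool} (hk : k < l) (hx : x.length < l) {ω ω' : Om}
    (h : ∀ c ∈ CC l, ω c = ω' c) : wit ω k x = wit ω' k x :=
  List.map_congr_left fun _ hb => h _ (mem_CC hk hx (List.mem_range.1 hb))

theorem mix_dep {Q : ℕ → ℕ → Prop} {l : ℕ} {ω ω' : Om} (h : ∀ c ∈ CC l, ω c = ω' c) (η : Om) :
    ∀ c ∈ CC l, mix Q ω η c = mix Q ω' η c := by
  intro c hc
  by_cases h4 : Q c.1 c.2.1
  · rw [mix_pos h4, mix_pos h4]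
    exact h c hc
  · rw [mix_neg h4, mix_neg h4]

theorem Or_dep (l : ℕ) {ω ω' : Om} (h : ∀ c ∈ CC l, ω c = ω' c) : Agree l (Or ω) (Or ω') := by
  induction l generalizing ω ω' with
  | zero => exact fun z hz => absurd hz (Nat.not_lt_zero _)
  | succ l ih =>
    intro z hz
    rw [mem_Or, mem_Or]
    cases hk : kind (spl z).2 with
    | tab r w j =>
      have h1 := tab_len hk
      have h2 : MM Or ω w = MM Or ω' w := by
        rw [MM, MM]
        congr 1
        refine Finset.sum_congr rfl fun t _ => ?_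
        by_cases ht : w.length < 2 ^ ar t
        · rw [aa_short Or ω ht, aa_short Or ω' ht]
        · have h3 : ∀ η, key (Or (mix (Rv t) ω η)) t = key (Or (mix (Rv t) ω' η)) t := by
            intro η
            exact key_congr ((ih (mix_dep (fun c hc => h c (CC_mono (Nat.le_succ l) hc)) η)).mono
              (by omega : 2 ^ ar t ≤ l))
          rw [aa, aa, pr, pr]
          simp only [h3]
      rw [mem_FF_tab hk, mem_FF_tab hk, out, out, h2]
    | clk x y => rw [mem_FF_clk hk, mem_FF_clk hk]
    | hid x y =>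
      have h1 := hid_len hk
      rw [mem_FF_hid hk, mem_FF_hid hk, Hid, Hid, Rb_dep (by omega) (by omega) h,
        wit_dep (by omega) (by omega) h]
    | other => exact iff_of_false (mem_FF_other hk) (mem_FF_other hk)

theorem pr_dep {j l : ℕ} (hl : 2 ^ ar j ≤ l) {ω ω' : Om} (h : ∀ c ∈ CC l, ω c = ω' c)
    (u : List Bool) : pr Or j ω u = pr Or j ω' u := by
  rw [pr, pr]
  congr 1
  ext η
  have h3 : key (Or (mix (Rv j) ω η)) j = key (Or (mix (Rv j) ω' η)) j :=
    key_congr ((Or_dep l (mix_dep h η)).mono hl)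
  rw [Set.mem_ofPred_eq, Set.mem_ofPred_eq, h3]

theorem pr_ag {j : ℕ} {ω ω' : Om} (h : Ag (Rv j) ω ω') (u : List Bool) :
    pr Or j ω u = pr Or j ω' u := by
  rw [pr, pr]
  simp only [mix_congr h]

theorem measurable_key (j : ℕ) (ω : Om) (P : List Bool → Prop) :
    MeasurableSet {ω' | P (key (Or (mix (Rv j) ω ω')) j)} := by
  refine Dep.measurable (C := CC (2 ^ ar j)) fun ω' ω'' h => ?_
  have h3 : key (Or (mix (Rv j) ω ω')) j = key (Or (mix (Rv j) ω ω'')) j := by
    refine key_congr (Or_dep _ ?_)
    intro c hc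
    by_cases h4 : Rv j c.1 c.2.1
    · rw [mix_pos h4, mix_pos h4]
    · rw [mix_neg h4, mix_neg h4]
      exact h c hc
  rw [Set.mem_ofPred_eq, Set.mem_ofPred_eq, h3]

/-! ### The ideal oracles -/

/-- The ideal oracle: the hidden part is only present for the strings in `Q`. -/
def Id (Q : ℕ → ℕ → Prop) (ω : Om) : Set (List Bool) :=
  {z | z ∈ Or ω ∧ ∀ x y, kind (spl z).2 = .hid x y → Q (spl z).1 (idx x)}

theorem Rb_ag {Q : ℕ → ℕ → Prop} {ω ω' : Om} (h : Ag Q ω ω') {k : ℕ} {x : List Bool}
    (hx : Q k (idx x)) : Rb ω k x = Rb ω' k x := h _ hx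

theorem wit_ag {Q : ℕ → ℕ → Prop} {ω ω' : Om} (h : Ag Q ω ω') {k : ℕ} {x : List Bool}
    (hx : Q k (idx x)) : wit ω k x = wit ω' k x :=
  List.map_congr_left fun _ _ => h _ hx

/-- the tables which are accessible by queries of length `l` depend only on `Q` -/
def Acc (l : ℕ) (Q : ℕ → ℕ → Prop) : Prop := ∀ j, 2 ^ ar j ≤ l → ∀ k i, Rv j k i → Q k i

theorem MM_ag {l : ℕ} {Q : ℕ → ℕ → Prop} (hQ : Acc l Q) {ω ω' : Om} (h : Ag Q ω ω')
    {w : List Bool} (hw : w.length ≤ l) : MM Or ω w = MM Or ω' w := by
  rw [MM, MM]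
  congr 1
  refine Finset.sum_congr rfl fun t _ => ?_
  by_cases ht : w.length < 2 ^ ar t
  · rw [aa_short Or ω ht, aa_short Or ω' ht]
  · rw [aa, aa, pr_ag (h.mono (hQ t (by omega)))]

theorem Id_ag {l : ℕ} {Q : ℕ → ℕ → Prop} (hQ : Acc l Q) {ω ω' : Om} (h : Ag Q ω ω')
    {z : List Bool} (hz : z.length ≤ l) : z ∈ Id Q ω ↔ z ∈ Id Q ω' := by
  simp only [Id, Set.mem_ofPred_eq]
  refine and_congr_left fun h1 => ?_
  rw [mem_Or, mem_Or]
  cases hk : kind (spl z).2 with
  | tab r w j =>
    have h1 := tab_len hk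
    rw [mem_FF_tab hk, mem_FF_tab hk, out, out, MM_ag hQ h (by omega)]
  | clk x y => rw [mem_FF_clk hk, mem_FF_clk hk]
  | hid x y =>
    have h2 := h1 x y hk
    rw [mem_FF_hid hk, mem_FF_hid hk, Hid, Hid, Rb_ag h h2, wit_ag h h2]
  | other => exact iff_of_false (mem_FF_other hk) (mem_FF_other hk)

/-- If the ideal oracle is wrong then a witness was found. -/
theorem Id_ne {Q : ℕ → ℕ → Prop} {ω : Om} {z : List Bool} (h : ¬ (z ∈ Id Q ω ↔ z ∈ Or ω)) :
    ∃ x y, (spl z).2 = encH x y true ∧ ¬ Q (spl z).1 (idx x) ∧ y = wit ω (spl z).1 x := by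
  by_contra hc
  push Not at hc
  apply h
  simp only [Id, Set.mem_ofPred_eq]
  refine ⟨fun h1 => h1.1, fun h1 => ⟨h1, fun x y hk => ?_⟩⟩
  by_contra h2
  refine hc x y (of_kind_hid hk) h2 ?_
  rw [mem_Or, mem_FF_hid hk] at h1
  exact h1.2

end Pool.Agent.Helper37Q
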