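import Pool.Agent.Helper37Q.Low2

set_option autoImplicit false
set_option linter.unusedSectionVars false

/-!
# The gales succeed on the languages in `NP` and in exponential time
-/

namespace Pool.Agent.Helper37Q

open Pool.Agent.Helper76.Dim
open Pool.Agent.Helper79K.DM (mach mach_surj tb apx Bit Agree eval_mono poly_le)

open MeasureTheory Filter

variable [Par]

/-- the decision tree of `D` with input `x` -/
noncomputable def tr (D : DTM) (c : ℕ) (x : List Bool) : QT (Option (List Bool)) :=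
  D.qt (2 ^ (c * (x.length + 1) ^ Par.K)) (Cfg.init D.k D.g D.n x)

/-- acceptance by `D` -/
noncomputable def Dacc (D : DTM) (c : ℕ) (A : Set (List Bool)) (x : List Bool) : Bool :=
  ((tr D c x).run (orA A) []).1.isSome

theorem five_ne_four (n : ℕ) : (5 : St n) ≠ 4 := by
  intro h
  rw [Fin.ext_iff] at h
  have h1 : (5 : St n).val = 5 := by
    show 5 % (n + 6) = 5
    exact Nat.mod_eq_of_lt (by omega)
  have h2 : (4 : St n).val = 4 := by
    show 4 % (n + 6) = 4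
    exact Nat.mod_eq_of_lt (by omega)
  omega

theorem mem_iff_Dacc {D : DTM} {c : ℕ} {A L : Set (List Bool)}
    (h : ∀ x, ∃ m ≤ 2 ^ (c * (x.length + 1) ^ Par.K),
      (x ∈ L → ((D.step A)^[m] (Cfg.init D.k D.g D.n x)).state = 4) ∧
      (x ∉ L → ((D.step A)^[m] (Cfg.init D.k D.g D.n x)).state = 5)) (x : List Bool) :
    x ∈ L ↔ Dacc D c A x = true := by
  obtain ⟨m, hm, h1, h2⟩ := h x
  obtain ⟨a, ha⟩ := Nat.exists_eq_add_of_le hm
  rw [Dacc, tr, DTM.qt_run, ha, Nat.add_comm m a, Function.iterate_add_apply]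
  by_cases hx : x ∈ L
  · rw [D.step_halt A (Or.inl (h1 hx)), DTM.fin, if_pos (h1 hx)]
    simp [hx]
  · rw [D.step_halt A (Or.inr (h2 hx)), DTM.fin, if_neg (by rw [h2 hx]; exact five_ne_four _)]
    simp [hx]

/-- the characteristic sequence of the language of `D` on the strings of scale `j` -/
noncomputable def kD (D : DTM) (c : ℕ) (A : Set (List Bool)) (j : ℕ) : List Bool :=
  (List.range (kl j)).map fun i => Dacc D c A (str (2 ^ ar j - 1 + i))

/-- bound for the computation times at scale `j` -/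
def TT (c j : ℕ) : ℕ := 2 ^ (c * (ti j + 1) ^ Par.K)

theorem tr_qlen (D : DTM) (c : ℕ) {j : ℕ} {x : List Bool} (hx : x.length ≤ ti j) :
    Qlen (tr D c x) (TT c j) :=
  (qt_init_qlen D _ x).mono
    (Nat.pow_le_pow_right (by norm_num)
      (Nat.mul_le_mul_left _ (Nat.pow_le_pow_left (by omega) _)))

theorem tr_bdd (D : DTM) (c : ℕ) {j : ℕ} {x : List Bool} (hx : x.length ≤ ti j) :
    (tr D c x).Bdd (TT c j) :=
  (D.qt_bdd _ _).mono
    (Nat.pow_le_pow_right (by norm_num)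
      (Nat.mul_le_mul_left _ (Nat.pow_le_pow_left (by omega) _)))

theorem kD_congr (D : DTM) (c : ℕ) {j : ℕ} {A B : Set (List Bool)}
    (h : ∀ z : List Bool, z.length ≤ TT c j → (z ∈ A ↔ z ∈ B)) : kD D c A j = kD D c B j := by
  refine List.map_congr_left fun i hi => ?_
  rw [List.mem_range] at hi
  rw [Dacc, Dacc, run_ag h _ (tr_qlen D c (idx_key hi).2)]

theorem ti_pow (j : ℕ) : (ti j + 1) ^ Par.K ≤ 3 ^ Par.K * ar j ^ Par.K := by
  have h := lt_ar j
  rw [← mul_pow]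
  exact Nat.pow_le_pow_left (by rw [ti]; omega) _

theorem acc_scale {c j : ℕ} (hj : c * 3 ^ Par.K < ar j) : Acc (TT c j) (Rv j) := by
  intro i h k n hR
  refine Rv_mono ?_ k n hR
  by_contra hc
  have h1 : ar i ≤ c * (ti j + 1) ^ Par.K := (Nat.pow_le_pow_iff_right (by norm_num)).1 h
  have h2 : ar j ^ (Par.K + 2) ≤ ar i := by
    rw [← ar_succ]
    exact ar_mono (by omega)
  have h3 : c * (ti j + 1) ^ Par.K ≤ c * 3 ^ Par.K * ar j ^ Par.K := by
    rw [mul_assoc]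
    exact Nat.mul_le_mul_left _ (ti_pow j)
  have h0 : 0 < ar j := by omega
  have h4 : c * 3 ^ Par.K * ar j ^ Par.K < ar j * ar j ^ Par.K :=
    Nat.mul_lt_mul_of_pos_right hj (pow_pos h0 _)
  have h5 : ar j * ar j ^ Par.K ≤ ar j ^ (Par.K + 2) := by
    rw [← pow_succ']
    exact Nat.pow_le_pow_right h0 (by omega)
  omega

/-- The probability that a witness is found at scale `j`. -/
theorem mu_hits (D : DTM) (c : ℕ) {j : ℕ} (hj : c * 3 ^ Par.K + 4 ≤ j) :
    mu.real {ω | ∃ i < kl j, ¬ Ok (Rv j) (tr D c (str (2 ^ ar j - 1 + i))) ω} ≤ (1 / 2) ^ j := by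
  have ha := lt_ar j
  have h1 : {ω | ∃ i < kl j, ¬ Ok (Rv j) (tr D c (str (2 ^ ar j - 1 + i))) ω} ⊆
      ⋃ i ∈ Finset.range (kl j), {ω | ¬ Ok (Rv j) (tr D c (str (2 ^ ar j - 1 + i))) ω} := by
    rintro ω ⟨i, hi, h⟩
    simp only [Set.mem_iUnion, Finset.mem_range, exists_prop]
    exact ⟨i, hi, h⟩
  refine (measureReal_mono h1 (measure_ne_top _ _)).trans
    ((measureReal_biUnion_finset_le _ _).trans ?_)
  have h2 : ∀ i ∈ Finset.range (kl j),
      mu.real {ω | ¬ Ok (Rv j) (tr D c (str (2 ^ ar j - 1 + i))) ω} ≤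
        TT c j * (1 / 2) ^ (ar j ^ (Par.K + 2)) := by
    intro i hi
    rw [Finset.mem_range] at hi
    have hx := (idx_key hi).2
    exact mu_ok (Q := Rv j) (l := TT c j) (k := 0) (b := ar j ^ (Par.K + 2)) (T := TT c j)
      (τ := fun _ => tr D c (str (2 ^ ar j - 1 + i))) (fun _ _ _ => rfl)
      (fun _ => tr_qlen D c hx) (fun _ => tr_bdd D c hx) (fun _ _ => rfl)
      (acc_scale (by omega)) (fun k x hx => by
        rw [Rv, str_idx, not_lt] at hx
        exact hx)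
  refine (Finset.sum_le_sum h2).trans ?_
  rw [Finset.sum_const, Finset.card_range, nsmul_eq_mul]
  have h3 : kl j ≤ 2 ^ (ti j + 1) := Nat.sub_le _ _
  have h4 : (kl j : ℝ) ≤ 2 ^ (ti j + 1) := by exact_mod_cast h3
  have h5 : ((TT c j : ℕ) : ℝ) = 2 ^ (c * (ti j + 1) ^ Par.K) := by
    rw [TT]
    push_cast
    rfl
  have h6 : (ti j + 1) + c * (ti j + 1) ^ Par.K + j ≤ ar j ^ (Par.K + 2) := by
    have h0 : 1 ≤ ar j := by omega
    have e1 : c * (ti j + 1) ^ Par.K ≤ c * 3 ^ Par.K * ar j ^ (Par.K + 1) := by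
      rw [mul_assoc]
      exact Nat.mul_le_mul_left _ ((ti_pow j).trans
        (Nat.mul_le_mul_left _ (Nat.pow_le_pow_right h0 (Nat.le_succ _))))
    have e2 : (c * 3 ^ Par.K + 4) * ar j ^ (Par.K + 1) ≤ ar j * ar j ^ (Par.K + 1) :=
      Nat.mul_le_mul_right _ (by omega)
    have e3 : ar j * ar j ^ (Par.K + 1) = ar j ^ (Par.K + 2) := by
      rw [← pow_succ']
    have e4 : ar j ≤ ar j ^ (Par.K + 1) := Nat.le_self_pow (by omega) _
    rw [← e3]
    refine le_trans ?_ e2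
    rw [add_mul, ti]
    rw [ti] at e1
    omega
  have h7 : ((1 : ℝ) / 2) ^ (ar j ^ (Par.K + 2)) ≤
      (1 / 2) ^ ((ti j + 1) + c * (ti j + 1) ^ Par.K + j) :=
    pow_le_pow_of_le_one (by norm_num) (by norm_num) h6
  calc (kl j : ℝ) * ((TT c j : ℕ) * (1 / 2) ^ (ar j ^ (Par.K + 2))) ≤
      2 ^ (ti j + 1) * (2 ^ (c * (ti j + 1) ^ Par.K) *
        (1 / 2) ^ ((ti j + 1) + c * (ti j + 1) ^ Par.K + j)) := by
        rw [h5]
        gcongr
    _ = (2 ^ (ti j + 1) * (1 / 2) ^ (ti j + 1)) * (2 ^ (c * (ti j + 1) ^ Par.K) *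
        (1 / 2) ^ (c * (ti j + 1) ^ Par.K)) * (1 / 2) ^ j := by
        rw [pow_add, pow_add]
        ring
    _ = (1 / 2) ^ j := by
        rw [← mul_pow, ← mul_pow]
        norm_num

theorem null_hits (D : DTM) (c : ℕ) :
    mu {ω | ∃ᶠ j in atTop,
      ω ∈ {ω | ∃ i < kl j, ¬ Ok (Rv j) (tr D c (str (2 ^ ar j - 1 + i))) ω}} = 0 :=
  borel summable_geometric_two (eventually_atTop.2 ⟨c * 3 ^ Par.K + 4, fun _ hj => mu_hits D c hj⟩)

/-- the event that the key agrees with the key of `D` although this is unlikely -/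
def Ev (D : DTM) (c j : ℕ) : Set Om :=
  {ω | key (Or ω) j = kD D c (Id (Rv j) ω) j ∧
    pr Or j ω (kD D c (Id (Rv j) ω) j) < (1 / 2) ^ (j + 1)}

theorem measurable_Ev (D : DTM) (c j : ℕ) : MeasurableSet (Ev D c j) := by
  refine Dep.measurable (C := CC (max (2 ^ ar j) (TT c j + 1))) fun ω ω' h => ?_
  set k := max (2 ^ ar j) (TT c j + 1) with hk
  have h2 : Agree k (Or ω) (Or ω') := Or_dep k h
  have h3 : Agree k (Id (Rv j) ω) (Id (Rv j) ω') := Id_agree h2
  have h4 : kD D c (Id (Rv j) ω) j = kD D c (Id (Rv j) ω') j :=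
    kD_congr D c fun z hz => h3 z (by omega)
  have h5 : key (Or ω) j = key (Or ω') j := key_congr (h2.mono (le_max_left _ _))
  simp only [Ev, Set.mem_ofPred_eq]
  rw [h4, h5, pr_dep (le_max_left _ _) h]

theorem mu_Ev (D : DTM) (c : ℕ) {j : ℕ} (hj : c * 3 ^ Par.K + 4 ≤ j) :
    mu.real (Ev D c j) ≤ (1 / 2) ^ (j + 1) := by
  have ha := lt_ar j
  refine mu_le_of_mix (Rv j) (measurable_Ev D c j) (by positivity) fun ω => ?_
  set κ := kD D c (Id (Rv j) ω) j with hκ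
  have h1 : ∀ ω', kD D c (Id (Rv j) (mix (Rv j) ω ω')) j = κ := fun ω' =>
    kD_congr D c fun z hz => Id_ag (acc_scale (by omega)) (Ag.mix _ ω ω') hz
  have h2 : ∀ ω', pr Or j (mix (Rv j) ω ω') κ = pr Or j ω κ := fun ω' =>
    pr_ag (Ag.mix _ ω ω') κ
  by_cases h3 : pr Or j ω κ < (1 / 2) ^ (j + 1)
  · refine le_trans (measureReal_mono ?_ (measure_ne_top _ _)) h3.le
    intro ω' h
    have h4 : key (Or (mix (Rv j) ω ω')) j = kD D c (Id (Rv j) (mix (Rv j) ω ω')) j := h.1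
    rw [h1] at h4
    show κ <+: key (Or (mix (Rv j) ω ω')) j
    rw [h4]
  · have h4 : {ω' | mix (Rv j) ω ω' ∈ Ev D c j} = ∅ := by
      ext ω'
      simp only [Ev, Set.mem_ofPred_eq, Set.mem_empty_iff_false, iff_false]
      rintro ⟨_, h5⟩
      rw [h1, h2] at h5
      exact h3 h5
    rw [h4, measureReal_empty]
    positivity

theorem null_Ev (D : DTM) (c : ℕ) : mu {ω | ∃ᶠ j in atTop, ω ∈ Ev D c j} = 0 :=
  borel ((summable_nat_add_iff 1).2 summable_geometric_two)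
    (eventually_atTop.2 ⟨c * 3 ^ Par.K + 4, fun _ hj => mu_Ev D c hj⟩)

/-! ### Success -/

theorem mm_ge_aa (ω : Om) {j : ℕ} {w : List Bool} (h : j < w.length + 1) :
    (1 / 2) ^ (j + 1) * aa Or j ω w ≤ mm ω w := by
  have h1 : ∀ i ∈ Finset.range (w.length + 1), 0 ≤ (1 / 2 : ℝ) ^ (i + 1) * aa Or i ω w := by
    intro i _
    have h1 := aa_nonneg Or i ω w
    positivity
  have h2 := Finset.single_le_sum h1 (Finset.mem_range.2 h)
  have h3 : (0 : ℝ) ≤ (1 / 2) ^ (w.length + 1) := by positivity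
  exact h2.trans (le_add_of_nonneg_right h3)

open Classical in
/-- The growth of the martingale at the end of a scale. -/
theorem growth {ω : Om} {L : Set (List Bool)} {D : DTM} {c j : ℕ}
    (hL : ∀ x : List Bool, x.length ≤ ti j → (x ∈ LL j (Or ω) ↔ x ∈ L))
    (hD : ∀ x, x ∈ L ↔ Dacc D c (Or ω) x = true)
    (h1 : ∀ i < kl j, Ok (Rv j) (tr D c (str (2 ^ ar j - 1 + i))) ω)
    (h2 : ω ∉ Ev D c j) :
    (1 / 2 : ℝ) ^ (j + 1) * (2 ^ kl j * (1 / 2) ^ (j + 1)) ≤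
      mm ω (initSeg (chi L) (2 ^ (ti j + 1) - 1)) := by
  have e1 : por j (initSeg (chi L) (2 ^ (ti j + 1) - 1)) = key (Or ω) j := by
    rw [por, drop_take_initSeg _ (kl_add j).le]
    refine List.map_congr_left fun i hi => ?_
    rw [List.mem_range] at hi
    exact (decide_eq_decide.2 (hL _ (idx_key hi).2)).symm
  have e2 : key (Or ω) j = kD D c (Id (Rv j) ω) j := by
    refine List.map_congr_left fun i hi => ?_
    rw [List.mem_range] at hi
    have e3 : Dacc D c (Id (Rv j) ω) (str (2 ^ ar j - 1 + i)) =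
        Dacc D c (Or ω) (str (2 ^ ar j - 1 + i)) := by
      rw [Dacc, Dacc, (h1 i hi).run]
    have e4 := (hL _ (idx_key hi).2).trans (hD (str (2 ^ ar j - 1 + i)))
    rw [e3]
    by_cases h : Dacc D c (Or ω) (str (2 ^ ar j - 1 + i)) = true
    · rw [h]
      exact decide_eq_true (e4.2 h)
    · rw [Bool.not_eq_true] at h
      rw [h]
      exact decide_eq_false fun h3 => by
        rw [e4.1 h3] at h
        exact absurd h (by simp)
  have e3 : (1 / 2 : ℝ) ^ (j + 1) ≤ pr Or j ω (kD D c (Id (Rv j) ω) j) := by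
    by_contra hc
    exact h2 ⟨e2, not_le.1 hc⟩
  have hlen : j < (initSeg (chi L) (2 ^ (ti j + 1) - 1)).length + 1 := by
    rw [length_initSeg]
    have h3 : ti j + 1 < 2 ^ (ti j + 1) := Nat.lt_two_pow_self
    have h4 := lt_ar j
    rw [ti] at h3 ⊢
    omega
  refine le_trans ?_ (mm_ge_aa ω hlen)
  rw [aa, e1, length_key, e2]
  gcongr

theorem growth_large (s : ℝ) (hs : 0 < s) (C : ℝ) : ∃ j0 : ℕ, ∀ j, j0 ≤ j →
    C < 2 ^ ((s - 1) * ((2 ^ (ti j + 1) - 1 : ℕ) : ℝ)) *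
      ((1 / 2 : ℝ) ^ (j + 1) * (2 ^ kl j * (1 / 2) ^ (j + 1))) := by
  obtain ⟨a, ha⟩ := exists_nat_gt (6 / s)
  obtain ⟨b, hb⟩ := exists_nat_gt C
  refine ⟨max a b, fun j hj => ?_⟩
  set y : ℝ := 2 ^ ar j with hy
  have h1 : (j : ℝ) < y := by
    have h2 := lt_two_pow_ar j
    have : ((j : ℕ) : ℝ) < ((2 ^ ar j : ℕ) : ℝ) := by exact_mod_cast h2
    push_cast at this
    exact this
  have h2 : (a : ℝ) ≤ j := by exact_mod_cast (le_max_left _ _).trans hj
  have h3 : (b : ℝ) ≤ j := by exact_mod_cast (le_max_right _ _).trans hj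
  have h4 : (1 : ℝ) ≤ y := one_le_pow₀ (by norm_num)
  have h5 : 6 < s * y := by
    rw [div_lt_iff₀ hs] at ha
    nlinarith
  set m : ℕ := 2 ^ (ti j + 1) - 1 with hm
  have h6 : y ^ 2 ≤ m := by
    have h7 : (2 ^ ar j) ^ 2 ≤ m := by
      have e : 2 ^ (ti j + 1) = 2 * (2 ^ ar j) ^ 2 := by rw [ti]; ring
      rw [hm, e]
      have : 1 ≤ (2 ^ ar j) ^ 2 := Nat.one_le_pow _ _ (by positivity)
      omega
    have : (((2 ^ ar j) ^ 2 : ℕ) : ℝ) ≤ m := by exact_mod_cast h7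
    push_cast at this
    exact this
  have h7 : (kl j : ℝ) = m + 1 - y := by
    have h8 := kl_add j
    have h9 : 1 ≤ 2 ^ ar j := Nat.one_le_two_pow
    have h10 : kl j + 2 ^ ar j = m + 1 := by omega
    have h11 : ((kl j : ℕ) : ℝ) + ((2 ^ ar j : ℕ) : ℝ) = m + 1 := by exact_mod_cast h10
    push_cast at h11
    linarith
  have h8 : (2 : ℝ) ^ ((s - 1) * (m : ℝ)) *
      ((1 / 2 : ℝ) ^ (j + 1) * (2 ^ kl j * (1 / 2) ^ (j + 1))) =
      2 ^ ((s - 1) * (m : ℝ) + (m + 1 - y) - (j + 1) - (j + 1)) := by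
    have e1 : ((1 : ℝ) / 2) ^ (j + 1) = 2 ^ (-((j : ℝ) + 1)) := by
      rw [one_div, inv_pow, Real.rpow_neg (by norm_num)]
      congr 1
      rw [← Real.rpow_natCast]
      push_cast
      rfl
    have e2 : (2 : ℝ) ^ kl j = 2 ^ ((m : ℝ) + 1 - y) := by
      rw [← h7, Real.rpow_natCast]
    rw [e1, e2, sub_eq_add_neg _ ((j : ℝ) + 1), sub_eq_add_neg _ ((j : ℝ) + 1),
      Real.rpow_add (by norm_num), Real.rpow_add (by norm_num), Real.rpow_add (by norm_num)]
    ring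
  rw [h8]
  have h9 : y ≤ (s - 1) * (m : ℝ) + (m + 1 - y) - (j + 1) - (j + 1) := by
    have h10 : s * y ^ 2 ≤ s * m := mul_le_mul_of_nonneg_left h6 hs.le
    have h11 : 6 * y ≤ s * y ^ 2 := by nlinarith
    nlinarith
  have h10 : (2 : ℝ) ^ y ≤ 2 ^ ((s - 1) * (m : ℝ) + (m + 1 - y) - (j + 1) - (j + 1)) :=
    Real.rpow_le_rpow_of_exponent_le (by norm_num) h9
  have h11 : (j : ℝ) ≤ 2 ^ y := by
    have h12 : (2 : ℝ) ^ (j : ℝ) ≤ 2 ^ y := Real.rpow_le_rpow_of_exponent_le (by norm_num) h1.le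
    rw [Real.rpow_natCast] at h12
    have h13 : (j : ℝ) < 2 ^ j := by exact_mod_cast Nat.lt_two_pow_self (n := j)
    linarith
  linarith

/-- If only finitely many exceptional events occur, the martingale succeeds on the languages in
`NP` and in exponential time, and grows so fast that it shows that the dimension of this class is zero. -/
theorem succeeds {ω : Om}
    (h1 : ∀ (D : DTM) (c : ℕ), ¬ ∃ᶠ j in atTop,
      ω ∈ {ω | ∃ i < kl j, ¬ Ok (Rv j) (tr D c (str (2 ^ ar j - 1 + i))) ω})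
    (h2 : ∀ (D : DTM) (c : ℕ), ¬ ∃ᶠ j in atTop, ω ∈ Ev D c j) {L : Set (List Bool)}
    (hL : L ∈ NP (Or ω) ∩ DE Par.K (Or ω)) {s : ℝ} (hs : 0 < s) :
    Succeeds (fun w => 2 ^ ((s - 1) * (w.length : ℝ)) * mm ω w) (chi L) := by
  obtain ⟨⟨N, p, hN1, hN2⟩, D, c, hD⟩ := hL
  obtain ⟨e, he⟩ := mach_surj (N, p)
  intro C m
  have g1 := h1 D c
  have g2 := h2 D c
  rw [not_frequently] at g1 g2
  obtain ⟨a1, ha1⟩ := eventually_atTop.1 (g1.and g2)
  obtain ⟨a2, ha2⟩ := growth_large s hs C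
  obtain ⟨a3, ha3⟩ := eventually_atTop.1 (poly_le (p.comp (2 * Polynomial.X)) 1)
  set j := Nat.pair e (a1 + a2 + a3 + m) with hj
  have hj1 : a1 + a2 + a3 + m ≤ j := Nat.right_le_pair _ _
  have hu : j.unpair.1 = e := by rw [hj, Nat.unpair_pair]
  have hb : ∀ i, tb j i = p.eval i := fun i => by rw [tb, hu, he]
  have har := lt_ar j
  have hT : p.eval (ti j) ≤ 2 ^ ar j := by
    have h3 := ha3 (ar j) (by omega)
    rw [one_mul, Polynomial.eval_comp] at h3
    refine (eval_mono p ?_).trans h3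
    simp only [Polynomial.eval_mul, Polynomial.eval_ofNat, Polynomial.eval_X]
    rw [ti]
    omega
  have hLL : ∀ x : List Bool, x.length ≤ ti j → (x ∈ LL j (Or ω) ↔ x ∈ L) := by
    intro x _
    rw [hN2 x, ← N.accIn_iff (hN1 x)]
    simp only [LL, Set.mem_ofPred_eq, hb, hT, true_and]
    rw [hu, he]
  obtain ⟨b1, b2⟩ := ha1 j (by omega)
  have hgr := growth hLL (mem_iff_Dacc hD) (fun i hi => by
    by_contra hc
    exact b1 ⟨i, hi, hc⟩) b2
  refine ⟨2 ^ (ti j + 1) - 1, ?_, lt_of_lt_of_le (ha2 j (by omega)) ?_⟩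
  · have h3 : ti j + 1 < 2 ^ (ti j + 1) := Nat.lt_two_pow_self
    rw [ti] at h3 ⊢
    omega
  · simp only [length_initSeg]
    gcongr

end Pool.Agent.Helper37Q
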